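import Pool.Agent.RElim.Sup
import Pool.Agent.AllR.RF

/-! Existential real conditions with one real parameter: unboundedness is again such a condition. -/

set_option autoImplicit false

namespace Pool.Agent.RElim

open Finset MvPolynomial Pool.Agent.PT Pool.Agent.AllR

variable {Γ : Type}

/-- the variable with a given code -/
noncomputable def pv (W : ℕ) (c : ℕ) : MvPolynomial (Fin W) ℤ :=
  if c = 0 then 0 else if c = 1 then 1 else if h : c < W then X ⟨c, h⟩ else 0

/-- a flat constraint -/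
noncomputable def pc (W a b c d : ℕ) : MvPolynomial (Fin W) ℤ :=
  pv W a * pv W b + pv W c - pv W d

/-- the value of a code -/
noncomputable def gv (W : ℕ) (v : Fin W → ℝ) (c : ℕ) : ℝ :=
  if c = 0 then 0 else if c = 1 then 1 else if h : c < W then v ⟨c, h⟩ else 0

theorem aeval_pv (W : ℕ) (v : Fin W → ℝ) (c : ℕ) : aeval v (pv W c) = gv W v c := by
  unfold pv gv
  split_ifs <;> simp

theorem aeval_pc (W : ℕ) (v : Fin W → ℝ) (a b c d : ℕ) :
    aeval v (pc W a b c d) = gv W v a * gv W v b + gv W v c - gv W v d := by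
  rw [pc, map_sub, map_add, map_mul, aeval_pv, aeval_pv, aeval_pv, aeval_pv]

theorem totalDegree_pv (W c : ℕ) : (pv W c).totalDegree ≤ 1 := by
  unfold pv
  split_ifs
  · simp
  · simp
  · exact (totalDegree_X _).le
  · simp

theorem totalDegree_pc (W a b c d : ℕ) : (pc W a b c d).totalDegree ≤ 2 := by
  unfold pc
  refine (totalDegree_sub _ _).trans (max_le ((totalDegree_add _ _).trans (max_le ?_ ?_)) ?_)
  · refine (totalDegree_mul _ _).trans ?_
    have := totalDegree_pv W a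
    have := totalDegree_pv W b
    omega
  · have := totalDegree_pv W c
    omega
  · have := totalDegree_pv W d
    omega

theorem mn_pv (W c : ℕ) : mn Int.natAbs (pv W c) ≤ 1 := by
  have hM := isNrm_natAbs.mn (σ := Fin W)
  unfold pv
  split_ifs
  · rw [hM.zero]; exact Nat.zero_le _
  · exact hM.one
  · exact mn_X isNrm_natAbs _
  · rw [hM.zero]; exact Nat.zero_le _

theorem mn_pc (W a b c d : ℕ) : mn Int.natAbs (pc W a b c d) ≤ 3 := by
  have hM := isNrm_natAbs.mn (σ := Fin W)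
  unfold pc
  have h1 := hM.sub (pv W a * pv W b + pv W c) (pv W d)
  have h2 := hM.add (pv W a * pv W b) (pv W c)
  have h3 := hM.mul (pv W a) (pv W b)
  have h4 : mn Int.natAbs (pv W a) * mn Int.natAbs (pv W b) ≤ 1 * 1 :=
    Nat.mul_le_mul (mn_pv W a) (mn_pv W b)
  have := mn_pv W c
  have := mn_pv W d
  omega

/-- the sum of squares of the constraints -/
noncomputable def hp (W n : ℕ) (A B C D : ℕ → ℕ) : MvPolynomial (Fin W) ℤ :=
  ∑ c ∈ range n, pc W (A c) (B c) (C c) (D c) ^ 2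

theorem aeval_hp (W n : ℕ) (A B C D : ℕ → ℕ) (v : Fin W → ℝ) : aeval v (hp W n A B C D) =
    ∑ c ∈ range n, (gv W v (A c) * gv W v (B c) + gv W v (C c) - gv W v (D c)) ^ 2 := by
  rw [hp, map_sum]
  exact Finset.sum_congr rfl fun c _ => by rw [map_pow, aeval_pc]

theorem hp_nonneg (W n : ℕ) (A B C D : ℕ → ℕ) (v : Fin W → ℝ) :
    0 ≤ aeval v (hp W n A B C D) := by
  rw [aeval_hp]
  exact Finset.sum_nonneg fun _ _ => sq_nonneg _

theorem hp_zero_iff (W n : ℕ) (A B C D : ℕ → ℕ) (v : Fin W → ℝ) :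
    aeval v (hp W n A B C D) = 0 ↔
      ∀ c, c < n → gv W v (A c) * gv W v (B c) + gv W v (C c) = gv W v (D c) := by
  rw [aeval_hp, Finset.sum_eq_zero_iff_of_nonneg fun _ _ => sq_nonneg _]
  simp only [mem_range, pow_eq_zero_iff (two_ne_zero), sub_eq_zero]

theorem hp_degree (W n : ℕ) (A B C D : ℕ → ℕ) : ∀ b ∈ (hp W n A B C D).support, b.degree ≤ 4 := by
  have h1 : (hp W n A B C D).totalDegree ≤ 4 := by
    refine totalDegree_finsetSum_le fun c _ => ?_
    refine (totalDegree_pow _ _).trans ?_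
    have := totalDegree_pc W (A c) (B c) (C c) (D c)
    omega
  intro b hb
  exact (le_totalDegree hb).trans h1

theorem mn_hp (W n : ℕ) (A B C D : ℕ → ℕ) : mn Int.natAbs (hp W n A B C D) ≤ 9 * n := by
  have hM := isNrm_natAbs.mn (σ := Fin W)
  refine (hM.sum _ _).trans ?_
  calc ∑ c ∈ range n, mn Int.natAbs (pc W (A c) (B c) (C c) (D c) ^ 2) ≤ ∑ _c ∈ range n, 9 := by
        refine Finset.sum_le_sum fun c _ => ?_
        rw [pow_two]
        exact (hM.mul _ _).trans (Nat.mul_le_mul (mn_pc _ _ _ _ _) (mn_pc _ _ _ _ _))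
    _ = 9 * n := by rw [Finset.sum_const, card_range, smul_eq_mul, mul_comm]

/-- the exponent of the exponent of the bound -/
def PE (w n : ℕ) : ℕ := 5 * w + ((6 + n) * (4 * w + 1) + 1 + 3 * w) + 1

theorem bound_le (w n a : ℕ) (ha : a ≤ 9 * n) :
    (5 ^ w).factorial * (1 + (1 + 4 * a) ^ (4 * w + 1)) ^ (5 ^ w) ≤ 2 ^ 2 ^ PE w n := by
  have h5 : 5 ^ w ≤ 2 ^ (3 * w) := by
    rw [pow_mul]
    exact Nat.pow_le_pow_left (by norm_num) _
  have h1 : (5 ^ w).factorial ≤ 2 ^ 2 ^ (5 * w) := by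
    have h3 : 3 * w ≤ 2 ^ (2 * w) := by
      rw [pow_mul]
      norm_num
      induction w with
      | zero => norm_num
      | succ w ih =>
        rcases Nat.eq_zero_or_pos w with rfl | hw
        · norm_num
        · have := ih (by
            rw [pow_mul]
            exact Nat.pow_le_pow_left (by norm_num) _)
          rw [pow_succ]
          omega
    calc (5 ^ w).factorial ≤ (5 ^ w) ^ (5 ^ w) := Nat.factorial_le_pow _
      _ ≤ (2 ^ (3 * w)) ^ (5 ^ w) := Nat.pow_le_pow_left h5 _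
      _ ≤ (2 ^ (3 * w)) ^ (2 ^ (3 * w)) := Nat.pow_le_pow_right (by positivity) h5
      _ = 2 ^ (3 * w * 2 ^ (3 * w)) := by rw [← pow_mul]
      _ ≤ 2 ^ (2 ^ (2 * w) * 2 ^ (3 * w)) :=
          Nat.pow_le_pow_right (by norm_num) (Nat.mul_le_mul_right _ h3)
      _ = 2 ^ 2 ^ (5 * w) := by rw [← pow_add]; congr 2; ring
  have h2 : 1 + 4 * a ≤ 2 ^ (6 + n) := by
    have h3 : n < 2 ^ n := Nat.lt_two_pow_self
    have h4 : 2 ^ (6 + n) = 64 * 2 ^ n := by rw [pow_add]; norm_num
    rw [h4]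
    omega
  have h3 : 1 + (1 + 4 * a) ^ (4 * w + 1) ≤ 2 ^ ((6 + n) * (4 * w + 1) + 1) := by
    have h4 : (1 + 4 * a) ^ (4 * w + 1) ≤ 2 ^ ((6 + n) * (4 * w + 1)) := by
      rw [pow_mul]
      exact Nat.pow_le_pow_left h2 _
    have h5 : 1 ≤ 2 ^ ((6 + n) * (4 * w + 1)) := Nat.one_le_two_pow
    rw [pow_succ 2 ((6 + n) * (4 * w + 1))]
    omega
  have h4 : (1 + (1 + 4 * a) ^ (4 * w + 1)) ^ (5 ^ w) ≤
      2 ^ 2 ^ ((6 + n) * (4 * w + 1) + 1 + 3 * w) := by
    calc _ ≤ (2 ^ ((6 + n) * (4 * w + 1) + 1)) ^ (5 ^ w) := Nat.pow_le_pow_left h3 _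
      _ ≤ (2 ^ ((6 + n) * (4 * w + 1) + 1)) ^ (2 ^ (3 * w)) :=
          Nat.pow_le_pow_right (by positivity) h5
      _ = 2 ^ (((6 + n) * (4 * w + 1) + 1) * 2 ^ (3 * w)) := by rw [← pow_mul]
      _ ≤ 2 ^ (2 ^ ((6 + n) * (4 * w + 1) + 1) * 2 ^ (3 * w)) :=
          Nat.pow_le_pow_right (by norm_num) (Nat.mul_le_mul_right _ Nat.lt_two_pow_self.le)
      _ = _ := by rw [← pow_add]
  calc _ ≤ 2 ^ 2 ^ (5 * w) * 2 ^ 2 ^ ((6 + n) * (4 * w + 1) + 1 + 3 * w) := Nat.mul_le_mul h1 h4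
    _ = 2 ^ (2 ^ (5 * w) + 2 ^ ((6 + n) * (4 * w + 1) + 1 + 3 * w)) := by rw [← pow_add]
    _ ≤ 2 ^ 2 ^ PE w n := by
        apply Nat.pow_le_pow_right (by norm_num)
        set p := 5 * w
        set q := (6 + n) * (4 * w + 1) + 1 + 3 * w
        have e1 : 2 ^ p ≤ 2 ^ (p + q) := Nat.pow_le_pow_right (by norm_num) (by omega)
        have e2 : 2 ^ q ≤ 2 ^ (p + q) := Nat.pow_le_pow_right (by norm_num) (by omega)
        have e3 : 2 ^ PE w n = 2 ^ (p + q) * 2 := by
          rw [← pow_succ]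
          rfl
        omega

/-- **Unboundedness.**  For an existential real condition `R x t` with one real parameter `t`, there
is a polynomial `P` in the size of the input `x` such that a solution `t ≥ 2 ^ 2 ^ P` can only exist
if arbitrarily large solutions exist. -/
theorem exists_bound {R : List Γ → ℝ → Prop} (hR : RE (fun x _ α => R x (α 0))) :
    ∃ P : List Γ → ℕ, UF (fun x _ => P x) ∧
      ∀ x, (∃ t, (2 : ℝ) ^ (2 ^ P x) < t ∧ R x t) → ∀ X : ℝ, ∃ t, X < t ∧ R x t := by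
  classical
  obtain ⟨S, hS⟩ := hR
  let nn : List Γ → ℕ := fun x => S.n x (fun _ => 0)
  let V : ℕ → List Γ → ℕ → ℕ := fun j x c => S.V j x (cons c (fun _ => 0))
  let WW : List Γ → ℕ := fun x => (∑ c ∈ range (nn x), (V 0 x c + V 1 x c + V 2 x c + V 3 x c)) + 3
  have hnn : UF (fun x (_ : ℕ → ℕ) => nn x) := UF.app S.hn (fun _ => UF.const 0)
  have hV : ∀ j, UF (fun x (e : ℕ → ℕ) => V j x (e 0)) := fun j =>
    UF.app (S.hV j) (UE.cons (UF.var 0) (fun _ => UF.const 0))
  have hWW : UF (fun x (_ : ℕ → ℕ) => WW x) := by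
    refine UF.add ?_ (UF.const 3)
    show UF (fun x (_ : ℕ → ℕ) => ∑ c ∈ range (nn x), (V 0 x c + V 1 x c + V 2 x c + V 3 x c))
    refine UF.sum hnn ?_
    exact (((hV 0).add (hV 1)).add (hV 2)).add (hV 3)
  have hWle : ∀ x c, c < nn x → V 0 x c < WW x ∧ V 1 x c < WW x ∧ V 2 x c < WW x ∧ V 3 x c < WW x := by
    intro x c hc
    have h1 := Finset.single_le_sum (f := fun c => V 0 x c + V 1 x c + V 2 x c + V 3 x c)
      (fun _ _ => Nat.zero_le _) (Finset.mem_range.2 hc)
    change V 0 x c + V 1 x c + V 2 x c + V 3 x c ≤ _ at h1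
    simp only [WW]
    omega
  have hW3 : ∀ x, 3 ≤ WW x := fun x => by simp only [WW]; omega
  refine ⟨fun x => PE (WW x) (nn x), ?_, ?_⟩
  · show UF (fun x (_ : ℕ → ℕ) => 5 * WW x + ((6 + nn x) * (4 * WW x + 1) + 1 + 3 * WW x) + 1)
    exact (((UF.const 5).mul hWW).add (((((UF.const 6).add hnn).mul
      (((UF.const 4).mul hWW).add (UF.const 1))).add (UF.const 1)).add
      ((UF.const 3).mul hWW))).add (UF.const 1)
  · rintro x ⟨t, ht, hRt⟩ X
    by_contra hcon
    push Not at hcon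
    set W := WW x with hW
    set h := hp W (nn x) (V 0 x) (V 1 x) (V 2 x) (V 3 x) with hh
    have h2 : 2 < W := hW3 x
    have hval : ∀ (γ : ℕ → ℝ), γ 0 = 0 → γ 1 = 1 → ∀ v,
        AllR.val (fun k => γ (2 * k + 2)) (fun k => γ (2 * k + 3)) v = γ v := by
      intro γ h0 h1 v
      unfold AllR.val
      split_ifs with g0 g1 g2
      · rw [g0, h0]
      · rw [g1, h1]
      · show γ (2 * ((v - 2) / 2) + 2) = γ v
        congr 1; omega
      · show γ (2 * ((v - 2) / 2) + 3) = γ v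
        congr 1; omega
    -- solutions of the polynomial system give solutions
    have hto : ∀ v : Fin W → ℝ, aeval v h = 0 → R x (v ⟨2, h2⟩) := by
      intro v hv
      rw [hh, hp_zero_iff] at hv
      have h1 := (hS x (fun _ => 0) (fun k => gv W v (2 * k + 2))).mpr
        ⟨fun k => gv W v (2 * k + 3), fun c hc => by
          have h3 := hv c hc
          simp only [Ct, hval (gv W v) rfl rfl]
          exact h3⟩
      have h3 : gv W v (2 * 0 + 2) = v ⟨2, h2⟩ := by
        simp [gv, h2]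
      simp only at h1
      rwa [h3] at h1
    have hfrom : ∀ t, R x t → ∃ v : Fin W → ℝ, aeval v h = 0 ∧ v ⟨2, h2⟩ = t := by
      intro t ht
      obtain ⟨β, hβ⟩ := (hS x (fun _ => 0) (fun _ => t)).mp ht
      refine ⟨fun i => AllR.val (fun _ => t) β i, ?_, ?_⟩
      · rw [hh, hp_zero_iff]
        intro c hc
        have h3 := hβ c hc
        simp only [Ct] at h3
        obtain ⟨g0, g1, g2, g3⟩ := hWle x c hc
        have hg : ∀ u, u < W → gv W (fun i : Fin W => AllR.val (fun _ => t) β i) u =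
            AllR.val (fun _ => t) β u := by
          intro u hu
          unfold gv
          split_ifs with e0 e1
          · rw [e0]; rfl
          · rw [e1]; rfl
          · rfl
        rw [hg _ g0, hg _ g1, hg _ g2, hg _ g3]
        exact h3
      · show AllR.val (fun _ => t) β 2 = t
        simp [AllR.val]
    obtain ⟨v, hv, hvt⟩ := hfrom t hRt
    have hb := sup_bound h (hp_degree _ _ _ _ _ _) (hp_nonneg _ _ _ _ _ _) ⟨2, h2⟩ X (by
      intro w hw
      by_contra hc
      push Not at hc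
      exact hcon _ hc (hto w hw)) v hv
    rw [hvt, Fintype.card_fin] at hb
    have h3 := bound_le W (nn x) (mn Int.natAbs h) (mn_hp _ _ _ _ _ _)
    have h4 : (((5 ^ W).factorial * (1 + (1 + 4 * mn Int.natAbs h) ^ (4 * W + 1)) ^ (5 ^ W) : ℕ) : ℝ)
        ≤ (2 : ℝ) ^ (2 ^ PE W (nn x)) := by
      exact_mod_cast h3
    linarith

end Pool.Agent.RElim
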