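import Pool.Agent.RElim.PSup
import Pool.Agent.RElim.Unb

/-! Existential real conditions with two real parameters and four pinned integer parameters. -/

set_option autoImplicit false

namespace Pool.Agent.RElim

theorem IsNrm.comap {R S : Type*} [CommRing R] [CommRing S] {N : S → ℕ} (hN : IsNrm N)
    (f : R →+* S) : IsNrm (fun a => N (f a)) where
  zero := by simp only [map_zero, hN.zero]
  one := by simpa only [map_one] using hN.one
  add := fun a b => by simpa only [map_add] using hN.add _ _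
  neg := fun a => by simpa only [map_neg] using hN.neg _
  mul := fun a b => by simpa only [map_mul] using hN.mul _ _

namespace Par

open Finset MvPolynomial Pool.Agent.PT Pool.Agent.AllR

/-- the weighted size on `ℤ[Y]`: the sum of `|p_i| 2^i` -/
noncomputable def NY (p : Polynomial ℤ) : ℕ :=
  pn Int.natAbs (Polynomial.compRingHom (Polynomial.C 2 * Polynomial.X) p)

theorem isNrm_NY : IsNrm NY := isNrm_natAbs.pn.comap _

theorem NY_eq (p : Polynomial ℤ) (s : Finset ℕ) (hs : p.support ⊆ s) :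
    NY p = ∑ i ∈ s, (p.coeff i).natAbs * 2 ^ i := by
  have h1 : (Polynomial.compRingHom (Polynomial.C 2 * Polynomial.X) p).support ⊆ s := by
    intro i hi
    apply hs
    rw [Polynomial.mem_support_iff] at hi ⊢
    intro h0
    apply hi
    rw [Polynomial.coe_compRingHom_apply, Polynomial.comp_C_mul_X_coeff, h0, zero_mul]
  rw [NY, pn_eq isNrm_natAbs _ s h1]
  refine Finset.sum_congr rfl fun i _ => ?_
  rw [Polynomial.coe_compRingHom_apply, Polynomial.comp_C_mul_X_coeff, Int.natAbs_mul,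
    Int.natAbs_pow]
  rfl

theorem NY_C (a : ℤ) : NY (Polynomial.C a) ≤ a.natAbs := by
  rw [NY_eq _ {0} (Polynomial.support_C_subset a)]
  simp

theorem NY_X : NY Polynomial.X ≤ 2 := by
  rw [NY_eq _ {1} (Polynomial.support_X (R := ℤ)).subset]
  simp

theorem abs_eval_le_NY (y : ℝ) (hy : |y| ≤ 2) (p : Polynomial ℤ) :
    |Polynomial.eval₂RingHom (Int.castRingHom ℝ) y p| ≤ NY p := by
  rw [NY_eq p p.support (Finset.Subset.refl _), Polynomial.coe_eval₂RingHom, Polynomial.eval₂_def,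
    Polynomial.sum_def]
  push_cast
  refine (Finset.abs_sum_le_sum_abs _ _).trans (Finset.sum_le_sum fun i _ => ?_)
  rw [abs_mul, abs_pow]
  have h1 : |(Int.castRingHom ℝ) (p.coeff i)| = ((p.coeff i).natAbs : ℝ) := by
    rw [eq_intCast, ← Int.cast_abs, Int.abs_eq_natAbs, Int.cast_natCast]
  rw [h1]
  gcongr

theorem two_pow_natDegree_le_NY (p : Polynomial ℤ) (hp : p ≠ 0) : 2 ^ p.natDegree ≤ NY p := by
  rw [NY_eq p p.support (Finset.Subset.refl _)]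
  have h1 : p.natDegree ∈ p.support := Polynomial.natDegree_mem_support_of_nonzero hp
  have h2 := Finset.single_le_sum (f := fun i => (p.coeff i).natAbs * 2 ^ i)
    (fun _ _ => Nat.zero_le _) h1
  refine le_trans ?_ h2
  have h3 : 1 ≤ (p.coeff p.natDegree).natAbs := by
    rw [Nat.one_le_iff_ne_zero, Int.natAbs_ne_zero]
    exact Polynomial.leadingCoeff_ne_zero.mpr hp
  exact Nat.le_mul_of_pos_left _ h3

theorem natAbs_coeff_le_NY (p : Polynomial ℤ) (i : ℕ) : (p.coeff i).natAbs ≤ NY p := by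
  classical
  by_cases hi : i ∈ p.support
  · rw [NY_eq p p.support (Finset.Subset.refl _)]
    have h2 := Finset.single_le_sum (f := fun i => (p.coeff i).natAbs * 2 ^ i)
      (fun _ _ => Nat.zero_le _) hi
    refine le_trans ?_ h2
    exact Nat.le_mul_of_pos_right _ (by positivity)
  · rw [Polynomial.notMem_support_iff.mp hi]
    simp

/-- the exponent of the exponent of the bound -/
def PE' (w c : ℕ) : ℕ := 5 * w + ((3 + c) * (4 * w + 1) + 1 + 3 * w) + 1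

theorem Bd_le (w c a : ℕ) (ha : a ≤ 2 ^ c) : Bd w a ≤ 2 ^ 2 ^ PE' w c := by
  have h5 : 5 ^ w ≤ 2 ^ (3 * w) := by
    rw [pow_mul]
    exact Nat.pow_le_pow_left (by norm_num) _
  have h1 : (5 ^ w).factorial ≤ 2 ^ 2 ^ (5 * w) := by
    have h3 : 3 * w ≤ 2 ^ (2 * w) := by
      rw [pow_mul]
      norm_num
      clear h5
      induction w with
      | zero => norm_num
      | succ w ih =>
        rcases Nat.eq_zero_or_pos w with rfl | hw
        · norm_num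
        · rw [pow_succ]
          omega
    calc (5 ^ w).factorial ≤ (5 ^ w) ^ (5 ^ w) := Nat.factorial_le_pow _
      _ ≤ (2 ^ (3 * w)) ^ (5 ^ w) := Nat.pow_le_pow_left h5 _
      _ ≤ (2 ^ (3 * w)) ^ (2 ^ (3 * w)) := Nat.pow_le_pow_right (by positivity) h5
      _ = 2 ^ (3 * w * 2 ^ (3 * w)) := by rw [← pow_mul]
      _ ≤ 2 ^ (2 ^ (2 * w) * 2 ^ (3 * w)) :=
          Nat.pow_le_pow_right (by norm_num) (Nat.mul_le_mul_right _ h3)
      _ = 2 ^ 2 ^ (5 * w) := by rw [← pow_add]; congr 2; ring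
  have h2 : 1 + 4 * a ≤ 2 ^ (3 + c) := by
    have h4 : 2 ^ (3 + c) = 8 * 2 ^ c := by rw [pow_add]; norm_num
    have h5 : 1 ≤ 2 ^ c := Nat.one_le_two_pow
    rw [h4]
    omega
  have h3 : 1 + (1 + 4 * a) ^ (4 * w + 1) ≤ 2 ^ ((3 + c) * (4 * w + 1) + 1) := by
    have h4 : (1 + 4 * a) ^ (4 * w + 1) ≤ 2 ^ ((3 + c) * (4 * w + 1)) := by
      rw [pow_mul]
      exact Nat.pow_le_pow_left h2 _
    have h5 : 1 ≤ 2 ^ ((3 + c) * (4 * w + 1)) := Nat.one_le_two_pow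
    rw [pow_succ 2 ((3 + c) * (4 * w + 1))]
    omega
  have h4 : (1 + (1 + 4 * a) ^ (4 * w + 1)) ^ (5 ^ w) ≤
      2 ^ 2 ^ ((3 + c) * (4 * w + 1) + 1 + 3 * w) := by
    calc _ ≤ (2 ^ ((3 + c) * (4 * w + 1) + 1)) ^ (5 ^ w) := Nat.pow_le_pow_left h3 _
      _ ≤ (2 ^ ((3 + c) * (4 * w + 1) + 1)) ^ (2 ^ (3 * w)) :=
          Nat.pow_le_pow_right (by positivity) h5
      _ = 2 ^ (((3 + c) * (4 * w + 1) + 1) * 2 ^ (3 * w)) := by rw [← pow_mul]
      _ ≤ 2 ^ (2 ^ ((3 + c) * (4 * w + 1) + 1) * 2 ^ (3 * w)) :=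
          Nat.pow_le_pow_right (by norm_num) (Nat.mul_le_mul_right _ Nat.lt_two_pow_self.le)
      _ = _ := by rw [← pow_add]
  calc Bd w a ≤ 2 ^ 2 ^ (5 * w) * 2 ^ 2 ^ ((3 + c) * (4 * w + 1) + 1 + 3 * w) :=
        Nat.mul_le_mul h1 h4
    _ = 2 ^ (2 ^ (5 * w) + 2 ^ ((3 + c) * (4 * w + 1) + 1 + 3 * w)) := by rw [← pow_add]
    _ ≤ 2 ^ 2 ^ PE' w c := by
        apply Nat.pow_le_pow_right (by norm_num)
        set p := 5 * w
        set q := (3 + c) * (4 * w + 1) + 1 + 3 * w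
        have e1 : 2 ^ p ≤ 2 ^ (p + q) := Nat.pow_le_pow_right (by norm_num) (by omega)
        have e2 : 2 ^ q ≤ 2 ^ (p + q) := Nat.pow_le_pow_right (by norm_num) (by omega)
        have e3 : 2 ^ PE' w c = 2 ^ (p + q) * 2 := by
          rw [← pow_succ]
          rfl
        omega

/-- the polynomial with its pinned variables -/
noncomputable def hq (W n : ℕ) (A B C D : ℕ → ℕ) (i0 i1 i2 i3 i4 : Fin W) (p0 p1 p2 p3 : ℤ) :
    MvPolynomial (Fin W) (Polynomial ℤ) :=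
  map Polynomial.C (hp W n A B C D) + (X i0 - MvPolynomial.C Polynomial.X) ^ 2 +
    (X i1 - MvPolynomial.C (Polynomial.C p0)) ^ 2 + (X i2 - MvPolynomial.C (Polynomial.C p1)) ^ 2 +
    (X i3 - MvPolynomial.C (Polynomial.C p2)) ^ 2 + (X i4 - MvPolynomial.C (Polynomial.C p3)) ^ 2

theorem eval_hq (W n : ℕ) (A B C D : ℕ → ℕ) (i0 i1 i2 i3 i4 : Fin W) (p0 p1 p2 p3 : ℤ) (y : ℝ)
    (v : Fin W → ℝ) :
    (hq W n A B C D i0 i1 i2 i3 i4 p0 p1 p2 p3).eval₂
      (Polynomial.eval₂RingHom (Int.castRingHom ℝ) y) v =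
      aeval v (hp W n A B C D) + (v i0 - y) ^ 2 + (v i1 - p0) ^ 2 + (v i2 - p1) ^ 2 +
        (v i3 - p2) ^ 2 + (v i4 - p3) ^ 2 := by
  have h1 : (map Polynomial.C (hp W n A B C D)).eval₂
      (Polynomial.eval₂RingHom (Int.castRingHom ℝ) y) v = aeval v (hp W n A B C D) := by
    rw [eval₂_map, aeval_def]
    congr 1
    exact RingHom.ext_int _ _
  simp only [hq, eval₂_add, eval₂_pow, eval₂_sub, eval₂_X, eval₂_C, h1]
  simp

theorem degree_hq (W n : ℕ) (A B C D : ℕ → ℕ) (i0 i1 i2 i3 i4 : Fin W) (p0 p1 p2 p3 : ℤ) :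
    ∀ b ∈ (hq W n A B C D i0 i1 i2 i3 i4 p0 p1 p2 p3).support, b.degree ≤ 4 := by
  have hsq : ∀ (i : Fin W) (c : Polynomial ℤ),
      ((X i - MvPolynomial.C c : MvPolynomial (Fin W) (Polynomial ℤ)) ^ 2).totalDegree ≤ 4 := by
    intro i c
    refine (totalDegree_pow _ _).trans ?_
    have h1 : (X i - MvPolynomial.C c : MvPolynomial (Fin W) (Polynomial ℤ)).totalDegree ≤ 1 := by
      refine (totalDegree_sub _ _).trans (max_le (totalDegree_X _).le ?_)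
      rw [totalDegree_C]
      exact Nat.zero_le _
    omega
  have hh : (map Polynomial.C (hp W n A B C D) :
      MvPolynomial (Fin W) (Polynomial ℤ)).totalDegree ≤ 4 := by
    rw [totalDegree, Finset.sup_le_iff]
    intro b hb
    have h1 := hp_degree W n A B C D b (support_map_subset _ _ hb)
    exact h1
  have htot : (hq W n A B C D i0 i1 i2 i3 i4 p0 p1 p2 p3).totalDegree ≤ 4 := by
    unfold hq
    refine (totalDegree_add _ _).trans (max_le ?_ (hsq _ _))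
    refine (totalDegree_add _ _).trans (max_le ?_ (hsq _ _))
    refine (totalDegree_add _ _).trans (max_le ?_ (hsq _ _))
    refine (totalDegree_add _ _).trans (max_le ?_ (hsq _ _))
    exact (totalDegree_add _ _).trans (max_le hh (hsq _ _))
  intro b hb
  exact (le_totalDegree hb).trans htot

theorem mn_hq (W n : ℕ) (A B C D : ℕ → ℕ) (i0 i1 i2 i3 i4 : Fin W) (p0 p1 p2 p3 b : ℕ)
    (h0 : p0 ≤ 2 ^ b) (h1 : p1 ≤ 2 ^ b) (h2 : p2 ≤ 2 ^ b) (h3 : p3 ≤ 2 ^ b) :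
    mn NY (hq W n A B C D i0 i1 i2 i3 i4 p0 p1 p2 p3) ≤ 2 ^ (n + 2 * b + 7) := by
  have hM := isNrm_NY.mn (σ := Fin W)
  have hsq : ∀ (i : Fin W) (c : Polynomial ℤ) (m : ℕ), NY c ≤ m →
      mn NY ((X i - MvPolynomial.C c : MvPolynomial (Fin W) (Polynomial ℤ)) ^ 2) ≤ (1 + m) ^ 2 := by
    intro i c m hm
    have e1 : mn NY (X i - MvPolynomial.C c : MvPolynomial (Fin W) (Polynomial ℤ)) ≤ 1 + m :=
      (hM.sub _ _).trans (Nat.add_le_add (mn_X isNrm_NY _) ((mn_C isNrm_NY _).trans hm))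
    rw [pow_two, pow_two]
    exact (hM.mul _ _).trans (Nat.mul_le_mul e1 e1)
  have hpin : ∀ (i : Fin W) (p : ℕ), p ≤ 2 ^ b →
      mn NY ((X i - MvPolynomial.C (Polynomial.C (p : ℤ)) :
        MvPolynomial (Fin W) (Polynomial ℤ)) ^ 2) ≤ 4 * 2 ^ (2 * b) := by
    intro i p hp
    refine (hsq i _ (2 ^ b) ((NY_C _).trans (by rw [Int.natAbs_natCast]; exact hp))).trans ?_
    have e1 : 1 ≤ 2 ^ b := Nat.one_le_two_pow
    calc (1 + 2 ^ b) ^ 2 ≤ (2 ^ b + 2 ^ b) ^ 2 := Nat.pow_le_pow_left (by omega) 2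
      _ = 4 * 2 ^ (2 * b) := by
          rw [mul_comm 2 b, pow_mul]
          ring
  have hh : mn NY (map Polynomial.C (hp W n A B C D) : MvPolynomial (Fin W) (Polynomial ℤ)) ≤
      9 * n :=
    (mn_map isNrm_natAbs isNrm_NY Polynomial.C (fun a => NY_C a) _).trans (mn_hp _ _ _ _ _ _)
  have htot : mn NY (hq W n A B C D i0 i1 i2 i3 i4 p0 p1 p2 p3) ≤
      9 * n + 9 + 4 * 2 ^ (2 * b) + 4 * 2 ^ (2 * b) + 4 * 2 ^ (2 * b) + 4 * 2 ^ (2 * b) := by
    unfold hq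
    refine (hM.add _ _).trans (Nat.add_le_add ?_ (hpin _ _ h3))
    refine (hM.add _ _).trans (Nat.add_le_add ?_ (hpin _ _ h2))
    refine (hM.add _ _).trans (Nat.add_le_add ?_ (hpin _ _ h1))
    refine (hM.add _ _).trans (Nat.add_le_add ?_ (hpin _ _ h0))
    refine (hM.add _ _).trans (Nat.add_le_add hh ?_)
    exact hsq _ _ 2 NY_X
  refine htot.trans ?_
  have e1 : n ≤ 2 ^ n := Nat.lt_two_pow_self.le
  have e2 : 1 ≤ 2 ^ n := Nat.one_le_two_pow
  have e3 : 1 ≤ 2 ^ (2 * b) := Nat.one_le_two_pow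
  have e4 : 2 ^ (n + 2 * b + 7) = 128 * (2 ^ n * 2 ^ (2 * b)) := by
    rw [pow_add, pow_add]
    norm_num
    ring
  have e5 : 2 ^ n ≤ 2 ^ n * 2 ^ (2 * b) := Nat.le_mul_of_pos_right _ (by omega)
  have e6 : 2 ^ (2 * b) ≤ 2 ^ n * 2 ^ (2 * b) := Nat.le_mul_of_pos_left _ (by omega)
  rw [e4]
  omega

/-- The elimination for one system of flat constraints. -/
theorem core (W n b : ℕ) (V : ℕ → ℕ → ℕ) (hW : 13 ≤ W)
    (hle : ∀ c, c < n → ∀ j, j < 4 → V j c < W)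
    (R : ℝ → ℝ → ℝ → ℝ → ℝ → ℝ → Prop)
    (hS : ∀ α : ℕ → ℝ, R (α 0) (α 1) (α 2) (α 3) (α 4) (α 5) ↔
      ∃ β : ℕ → ℝ, ∀ c, c < n → Ct (fun j => val α β (V j c)))
    (p0 p1 p2 p3 : ℕ) (hp0 : p0 ≤ 2 ^ b) (hp1 : p1 ≤ 2 ^ b) (hp2 : p2 ≤ 2 ^ b)
    (hp3 : p3 ≤ 2 ^ b) :
    ∃ q : Polynomial ℤ, q ≠ 0 ∧ q.natDegree ≤ 2 ^ PE' W (n + 2 * b + 7) ∧
      (∀ i, |q.coeff i| ≤ 2 ^ 2 ^ PE' W (n + 2 * b + 7)) ∧
        ∀ y : ℝ, |y| ≤ 2 → (∃ X : ℝ, ∀ t, R t y p0 p1 p2 p3 → t ≤ X) →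
          ∀ t, R t y p0 p1 p2 p3 →
            |Polynomial.aeval y q| * t ≤ 2 ^ 2 ^ PE' W (n + 2 * b + 7) := by
  classical
  have h2 : 2 < W := by omega
  have h4 : 4 < W := by omega
  have h6 : 6 < W := by omega
  have h8 : 8 < W := by omega
  have h10 : 10 < W := by omega
  have h12 : 12 < W := by omega
  obtain ⟨h, hh⟩ : ∃ h, h = hq W n (V 0) (V 1) (V 2) (V 3) ⟨4, h4⟩ ⟨6, h6⟩ ⟨8, h8⟩ ⟨10, h10⟩
    ⟨12, h12⟩ p0 p1 p2 p3 := ⟨_, rfl⟩
  have hmn : mn NY h ≤ 2 ^ (n + 2 * b + 7) := by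
    rw [hh]
    exact mn_hq _ _ _ _ _ _ _ _ _ _ _ _ _ _ _ _ hp0 hp1 hp2 hp3
  have hBd : Bd (Fintype.card (Fin W)) (mn NY h) ≤ 2 ^ 2 ^ PE' W (n + 2 * b + 7) := by
    rw [Fintype.card_fin]
    exact Bd_le _ _ _ hmn
  have hBd' : ((Bd (Fintype.card (Fin W)) (mn NY h) : ℕ) : ℝ) ≤
      2 ^ 2 ^ PE' W (n + 2 * b + 7) := by exact_mod_cast hBd
  have hdegh : ∀ b ∈ h.support, b.degree ≤ 4 := by
    rw [hh]
    exact degree_hq _ _ _ _ _ _ _ _ _ _ _ _ _ _ _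
  obtain ⟨q, hq0, hqN, hqb⟩ := param_bound isNrm_NY h hdegh ⟨2, h2⟩
  have hval : ∀ (γ : ℕ → ℝ), γ 0 = 0 → γ 1 = 1 → ∀ v,
      AllR.val (fun k => γ (2 * k + 2)) (fun k => γ (2 * k + 3)) v = γ v := by
    intro γ h0 h1 v
    unfold AllR.val
    split_ifs with g0 g1 g2
    · rw [g0, h0]
    · rw [g1, h1]
    · show γ (2 * ((v - 2) / 2) + 2) = γ v
      congr 1; omega
    · show γ (2 * ((v - 2) / 2) + 3) = γ v
      congr 1; omega
  refine ⟨q, hq0, ?_, ?_, ?_⟩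
  · have h1 : 2 ^ q.natDegree ≤ 2 ^ 2 ^ PE' W (n + 2 * b + 7) :=
      (two_pow_natDegree_le_NY q hq0).trans (hqN.trans hBd)
    exact (Nat.pow_le_pow_iff_right (by norm_num)).mp h1
  · intro i
    have h1 : (q.coeff i).natAbs ≤ 2 ^ 2 ^ PE' W (n + 2 * b + 7) :=
      (natAbs_coeff_le_NY q i).trans (hqN.trans hBd)
    rw [Int.abs_eq_natAbs]
    exact_mod_cast h1
  · rintro y hy ⟨Xb, hXb⟩ t ht
    obtain ⟨e, he⟩ : ∃ e, e = Polynomial.eval₂RingHom (Int.castRingHom ℝ) y := ⟨_, rfl⟩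
    have hev : ∀ v : Fin W → ℝ, h.eval₂ e v = aeval v (hp W n (V 0) (V 1) (V 2) (V 3)) +
        (v ⟨4, h4⟩ - y) ^ 2 + (v ⟨6, h6⟩ - p0) ^ 2 + (v ⟨8, h8⟩ - p1) ^ 2 +
        (v ⟨10, h10⟩ - p2) ^ 2 + (v ⟨12, h12⟩ - p3) ^ 2 := by
      intro v
      rw [hh, he, eval_hq]
      simp only [Int.cast_natCast]
    have hnn' : ∀ v : Fin W → ℝ, 0 ≤ h.eval₂ e v := by
      intro v
      rw [hev]
      have := hp_nonneg W n (V 0) (V 1) (V 2) (V 3) v
      positivity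
    have hz : ∀ v : Fin W → ℝ, h.eval₂ e v = 0 →
        aeval v (hp W n (V 0) (V 1) (V 2) (V 3)) = 0 ∧ v ⟨4, h4⟩ = y ∧
        v ⟨6, h6⟩ = p0 ∧ v ⟨8, h8⟩ = p1 ∧ v ⟨10, h10⟩ = p2 ∧ v ⟨12, h12⟩ = p3 := by
      intro v hv
      rw [hev] at hv
      have g0 := hp_nonneg W n (V 0) (V 1) (V 2) (V 3) v
      have g1 := sq_nonneg (v ⟨4, h4⟩ - y)
      have g2 := sq_nonneg (v ⟨6, h6⟩ - p0)
      have g3 := sq_nonneg (v ⟨8, h8⟩ - p1)
      have g4 := sq_nonneg (v ⟨10, h10⟩ - p2)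
      have g5 := sq_nonneg (v ⟨12, h12⟩ - p3)
      refine ⟨by linarith, ?_, ?_, ?_, ?_, ?_⟩
      · have : (v ⟨4, h4⟩ - y) ^ 2 = 0 := by linarith
        exact sub_eq_zero.mp (pow_eq_zero_iff two_ne_zero |>.mp this)
      · have : (v ⟨6, h6⟩ - p0) ^ 2 = 0 := by linarith
        exact sub_eq_zero.mp (pow_eq_zero_iff two_ne_zero |>.mp this)
      · have : (v ⟨8, h8⟩ - p1) ^ 2 = 0 := by linarith
        exact sub_eq_zero.mp (pow_eq_zero_iff two_ne_zero |>.mp this)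
      · have : (v ⟨10, h10⟩ - p2) ^ 2 = 0 := by linarith
        exact sub_eq_zero.mp (pow_eq_zero_iff two_ne_zero |>.mp this)
      · have : (v ⟨12, h12⟩ - p3) ^ 2 = 0 := by linarith
        exact sub_eq_zero.mp (pow_eq_zero_iff two_ne_zero |>.mp this)
    -- zeros give solutions
    have hto : ∀ v : Fin W → ℝ, h.eval₂ e v = 0 → R (v ⟨2, h2⟩) y p0 p1 p2 p3 := by
      intro v hv
      obtain ⟨k0, k1, k2, k3, k4, k5⟩ := hz v hv
      rw [hp_zero_iff] at k0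
      have g1 := (hS (fun k => gv W v (2 * k + 2))).mpr
        ⟨fun k => gv W v (2 * k + 3), fun c hc => by
          have g3 := k0 c hc
          simp only [Ct, hval (gv W v) rfl rfl]
          exact g3⟩
      have e0 : gv W v (2 * 0 + 2) = v ⟨2, h2⟩ := by simp [gv, h2]
      have e1 : gv W v (2 * 1 + 2) = v ⟨4, h4⟩ := by simp [gv, h4]
      have e2 : gv W v (2 * 2 + 2) = v ⟨6, h6⟩ := by simp [gv, h6]
      have e3 : gv W v (2 * 3 + 2) = v ⟨8, h8⟩ := by simp [gv, h8]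
      have e4 : gv W v (2 * 4 + 2) = v ⟨10, h10⟩ := by simp [gv, h10]
      have e5 : gv W v (2 * 5 + 2) = v ⟨12, h12⟩ := by simp [gv, h12]
      rw [e0, e1, e2, e3, e4, e5, k1, k2, k3, k4, k5] at g1
      exact g1
    -- the given solution is a zero
    obtain ⟨α0, hα0⟩ : ∃ α0 : ℕ → ℝ, α0 = fun k => if k = 0 then t else if k = 1 then y else
      if k = 2 then (p0 : ℝ) else if k = 3 then (p1 : ℝ) else if k = 4 then (p2 : ℝ) else
        if k = 5 then (p3 : ℝ) else 0 := ⟨_, rfl⟩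
    obtain ⟨β, hβ⟩ := (hS α0).mp (by
      rw [hα0]
      simpa using ht)
    obtain ⟨v0, hv0⟩ : ∃ v0 : Fin W → ℝ, v0 = fun i : Fin W => AllR.val α0 β (i : ℕ) := ⟨_, rfl⟩
    have hv0z : h.eval₂ e v0 = 0 := by
      rw [hev]
      have k0 : aeval v0 (hp W n (V 0) (V 1) (V 2) (V 3)) = 0 := by
        rw [hp_zero_iff]
        intro c hc
        have g3 := hβ c hc
        simp only [Ct] at g3
        have hg : ∀ u, u < W → gv W v0 u = AllR.val α0 β u := by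
          intro u hu
          unfold gv
          rw [hv0]
          split_ifs with e0 e1
          · rw [e0]; rfl
          · rw [e1]; rfl
          · rfl
        rw [hg _ (hle c hc 0 (by norm_num)), hg _ (hle c hc 1 (by norm_num)),
          hg _ (hle c hc 2 (by norm_num)), hg _ (hle c hc 3 (by norm_num))]
        exact g3
      have k1 : v0 ⟨4, h4⟩ = y := by rw [hv0, hα0]; simp [AllR.val]
      have k2 : v0 ⟨6, h6⟩ = p0 := by rw [hv0, hα0]; simp [AllR.val]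
      have k3 : v0 ⟨8, h8⟩ = p1 := by rw [hv0, hα0]; simp [AllR.val]
      have k4 : v0 ⟨10, h10⟩ = p2 := by rw [hv0, hα0]; simp [AllR.val]
      have k5 : v0 ⟨12, h12⟩ = p3 := by rw [hv0, hα0]; simp [AllR.val]
      rw [k0, k1, k2, k3, k4, k5]
      simp
    have hvt : v0 ⟨2, h2⟩ = t := by rw [hv0, hα0]; simp [AllR.val]
    have hfin := hqb e (fun a => by rw [he]; exact abs_eval_le_NY y hy a) hnn' Xb
      (fun v hv => hXb _ (hto v hv)) v0 hv0z
    rw [hvt] at hfin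
    have heq : e q = Polynomial.aeval y q := by
      rw [he, Polynomial.coe_eval₂RingHom, Polynomial.aeval_def]
      rfl
    rw [heq] at hfin
    exact hfin.trans hBd'

variable {Γ : Type}

/-- **Elimination with a parameter.** -/
theorem exists_bound_param {R : List Γ → ℝ → ℝ → ℝ → ℝ → ℝ → ℝ → Prop}
    (hR : RE (fun x _ α => R x (α 0) (α 1) (α 2) (α 3) (α 4) (α 5)))
    (b : List Γ → ℕ) (hb : UF (fun x _ => b x)) :
    ∃ P : List Γ → ℕ, UF (fun x _ => P x) ∧ ∀ (x : List Γ) (p0 p1 p2 p3 : ℕ), p0 ≤ 2 ^ b x →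
      p1 ≤ 2 ^ b x → p2 ≤ 2 ^ b x → p3 ≤ 2 ^ b x →
      ∃ q : Polynomial ℤ, q ≠ 0 ∧ q.natDegree ≤ 2 ^ P x ∧ (∀ i, |q.coeff i| ≤ 2 ^ 2 ^ P x) ∧
        ∀ y : ℝ, |y| ≤ 2 → (∃ X : ℝ, ∀ t, R x t y p0 p1 p2 p3 → t ≤ X) →
          ∀ t, R x t y p0 p1 p2 p3 → |Polynomial.aeval y q| * t ≤ 2 ^ 2 ^ P x := by
  classical
  obtain ⟨S, hS⟩ := hR
  let nn : List Γ → ℕ := fun x => S.n x (fun _ => 0)
  let V : ℕ → List Γ → ℕ → ℕ := fun j x c => S.V j x (cons c (fun _ => 0))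
  let WW : List Γ → ℕ := fun x => (∑ c ∈ range (nn x), (V 0 x c + V 1 x c + V 2 x c + V 3 x c)) + 13
  have hnn : UF (fun x (_ : ℕ → ℕ) => nn x) := UF.app S.hn (fun _ => UF.const 0)
  have hV : ∀ j, UF (fun x (e : ℕ → ℕ) => V j x (e 0)) := fun j =>
    UF.app (S.hV j) (UE.cons (UF.var 0) (fun _ => UF.const 0))
  have hWW : UF (fun x (_ : ℕ → ℕ) => WW x) := by
    refine UF.add ?_ (UF.const 13)
    show UF (fun x (_ : ℕ → ℕ) => ∑ c ∈ range (nn x), (V 0 x c + V 1 x c + V 2 x c + V 3 x c))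
    refine UF.sum hnn ?_
    exact (((hV 0).add (hV 1)).add (hV 2)).add (hV 3)
  have hWle : ∀ x c, c < nn x → V 0 x c < WW x ∧ V 1 x c < WW x ∧ V 2 x c < WW x ∧ V 3 x c < WW x := by
    intro x c hc
    have h1 := Finset.single_le_sum (f := fun c => V 0 x c + V 1 x c + V 2 x c + V 3 x c)
      (fun _ _ => Nat.zero_le _) (Finset.mem_range.2 hc)
    change V 0 x c + V 1 x c + V 2 x c + V 3 x c ≤ _ at h1
    simp only [WW]
    omega
  have hW3 : ∀ x, 13 ≤ WW x := fun x => by simp only [WW]; omega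
  refine ⟨fun x => PE' (WW x) (nn x + 2 * b x + 7), ?_, ?_⟩
  · show UF (fun x (_ : ℕ → ℕ) => 5 * WW x + ((3 + (nn x + 2 * b x + 7)) * (4 * WW x + 1) + 1 +
      3 * WW x) + 1)
    exact (((UF.const 5).mul hWW).add (((((UF.const 3).add ((hnn.add
      ((UF.const 2).mul hb)).add (UF.const 7))).mul
      (((UF.const 4).mul hWW).add (UF.const 1))).add (UF.const 1)).add
      ((UF.const 3).mul hWW))).add (UF.const 1)
  · intro x p0 p1 p2 p3 hp0 hp1 hp2 hp3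
    refine core (WW x) (nn x) (b x) (fun j c => V j x c) (hW3 x) ?_ (R x) ?_ p0 p1 p2 p3 hp0 hp1
      hp2 hp3
    · intro c hc j hj
      obtain ⟨g0, g1, g2, g3⟩ := hWle x c hc
      have hj' : j = 0 ∨ j = 1 ∨ j = 2 ∨ j = 3 := by omega
      rcases hj' with rfl | rfl | rfl | rfl
      · exact g0
      · exact g1
      · exact g2
      · exact g3
    · intro α
      exact hS x (fun _ => 0) α

end Par

end Pool.Agent.RElim
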