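import Mathlib

/-! Submultiplicative sizes on commutative rings, polynomials and matrices over them. -/

set_option autoImplicit false

namespace Pool.Agent.RElim

open Finset

/-- A size: `N 0 = 0`, `N 1 ≤ 1`, subadditive, even, submultiplicative. -/
structure IsNrm {R : Type*} [CommRing R] (N : R → ℕ) : Prop where
  zero : N 0 = 0
  one : N 1 ≤ 1
  add : ∀ a b, N (a + b) ≤ N a + N b
  neg : ∀ a, N (-a) ≤ N a
  mul : ∀ a b, N (a * b) ≤ N a * N b

theorem isNrm_natAbs : IsNrm Int.natAbs where
  zero := rfl
  one := le_rfl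
  add := Int.natAbs_add_le
  neg := fun a => (Int.natAbs_neg a).le
  mul := fun a b => (Int.natAbs_mul a b).le

variable {R : Type*} [CommRing R] {N : R → ℕ}

theorem IsNrm.sum (hN : IsNrm N) {ι : Type*} (s : Finset ι) (f : ι → R) :
    N (∑ i ∈ s, f i) ≤ ∑ i ∈ s, N (f i) := by
  classical
  induction s using Finset.induction_on with
  | empty => simp [hN.zero]
  | insert a s ha ih =>
    rw [Finset.sum_insert ha, Finset.sum_insert ha]
    exact (hN.add _ _).trans (Nat.add_le_add_left ih _)

theorem IsNrm.prod (hN : IsNrm N) {ι : Type*} (s : Finset ι) (f : ι → R) :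
    N (∏ i ∈ s, f i) ≤ ∏ i ∈ s, N (f i) := by
  classical
  induction s using Finset.induction_on with
  | empty => simpa using hN.one
  | insert a s ha ih =>
    rw [Finset.prod_insert ha, Finset.prod_insert ha]
    exact (hN.mul _ _).trans (Nat.mul_le_mul_left _ ih)

theorem IsNrm.sub (hN : IsNrm N) (a b : R) : N (a - b) ≤ N a + N b := by
  rw [sub_eq_add_neg]
  exact (hN.add _ _).trans (Nat.add_le_add_left (hN.neg b) _)

theorem IsNrm.natCast (hN : IsNrm N) (n : ℕ) : N (n : R) ≤ n := by
  induction n with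
  | zero => simp [hN.zero]
  | succ n ih =>
    push_cast
    exact (hN.add _ _).trans (Nat.add_le_add ih hN.one)

theorem IsNrm.sign (hN : IsNrm N) {ι : Type*} [Fintype ι] [DecidableEq ι] (σ : Equiv.Perm ι)
    (a : R) : N (Equiv.Perm.sign σ • a) ≤ N a := by
  rcases Int.units_eq_one_or (Equiv.Perm.sign σ) with h | h
  · rw [h, one_smul]
  · rw [h, Units.neg_smul, one_smul]
    exact hN.neg a

/-- Determinants. -/
theorem IsNrm.det (hN : IsNrm N) {ι : Type*} [Fintype ι] [DecidableEq ι] (M : Matrix ι ι R)
    (b : ℕ) (hb : ∀ i j, N (M i j) ≤ b) :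
    N M.det ≤ (Fintype.card ι).factorial * b ^ Fintype.card ι := by
  rw [Matrix.det_apply]
  refine (hN.sum _ _).trans ?_
  calc ∑ σ : Equiv.Perm ι, N (Equiv.Perm.sign σ • ∏ i, M (σ i) i) ≤
        ∑ _σ : Equiv.Perm ι, b ^ Fintype.card ι := by
        refine Finset.sum_le_sum fun σ _ => ?_
        refine (hN.sign σ _).trans ((hN.prod _ _).trans ?_)
        calc ∏ i, N (M (σ i) i) ≤ ∏ _i : ι, b := Finset.prod_le_prod' fun i _ => hb _ _
          _ = b ^ Fintype.card ι := by rw [Finset.prod_const, Finset.card_univ]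
    _ = _ := by rw [Finset.sum_const, Finset.card_univ, Fintype.card_perm, smul_eq_mul]

/-! ### Polynomials -/

open Polynomial in
/-- Sum of the sizes of the coefficients. -/
def pn (N : R → ℕ) (p : R[X]) : ℕ := ∑ i ∈ p.support, N (p.coeff i)

open Polynomial in
theorem pn_eq (hN : IsNrm N) (p : R[X]) (s : Finset ℕ) (hs : p.support ⊆ s) :
    pn N p = ∑ i ∈ s, N (p.coeff i) := by
  rw [pn]
  apply Finset.sum_subset hs
  intro i _ hi
  rw [notMem_support_iff.mp hi, hN.zero]

open Polynomial in
theorem pn_monomial (hN : IsNrm N) (n : ℕ) (a : R) : pn N (monomial n a) ≤ N a := by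
  classical
  rw [pn_eq hN _ {n} (support_monomial_subset n a)]
  simp

open Polynomial in
theorem pn_add (hN : IsNrm N) (p q : R[X]) : pn N (p + q) ≤ pn N p + pn N q := by
  classical
  rw [pn_eq hN (p + q) (p.support ∪ q.support) support_add,
    pn_eq hN p (p.support ∪ q.support) Finset.subset_union_left,
    pn_eq hN q (p.support ∪ q.support) Finset.subset_union_right, ← Finset.sum_add_distrib]
  exact Finset.sum_le_sum fun i _ => by rw [coeff_add]; exact hN.add _ _

open Polynomial in
theorem pn_sum (hN : IsNrm N) {ι : Type*} (s : Finset ι) (f : ι → R[X]) :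
    pn N (∑ i ∈ s, f i) ≤ ∑ i ∈ s, pn N (f i) := by
  classical
  induction s using Finset.induction_on with
  | empty => simp [pn]
  | insert a s ha ih =>
    rw [Finset.sum_insert ha, Finset.sum_insert ha]
    exact (pn_add hN _ _).trans (Nat.add_le_add_left ih _)

open Polynomial in
theorem IsNrm.pn (hN : IsNrm N) : IsNrm (pn N) where
  zero := by simp [RElim.pn]
  one := by
    rw [← monomial_zero_one]
    exact (pn_monomial hN 0 1).trans hN.one
  add := pn_add hN
  neg := fun p => by
    rw [RElim.pn, RElim.pn, support_neg]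
    exact Finset.sum_le_sum fun i _ => by rw [coeff_neg]; exact hN.neg _
  mul := fun p q => by
    rw [mul_eq_sum_sum]
    refine (pn_sum hN _ _).trans ?_
    simp only [RElim.pn]
    rw [Finset.sum_mul]
    refine Finset.sum_le_sum fun i _ => ?_
    rw [Polynomial.sum, Finset.mul_sum]
    refine (pn_sum hN _ _).trans (Finset.sum_le_sum fun j _ => ?_)
    exact (pn_monomial hN _ _).trans (hN.mul _ _)

open Polynomial in
theorem pn_C (hN : IsNrm N) (a : R) : pn N (C a) ≤ N a := pn_monomial hN 0 a

open Polynomial in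
theorem pn_X (hN : IsNrm N) : pn N (X : R[X]) ≤ 1 := by
  rw [← monomial_one_one_eq_X]
  exact (pn_monomial hN 1 1).trans hN.one

open Polynomial in
theorem leadingCoeff_le_pn (hN : IsNrm N) (p : R[X]) : N p.leadingCoeff ≤ pn N p := by
  by_cases h : p = 0
  · simp [h, hN.zero]
  · rw [pn]
    exact Finset.single_le_sum (f := fun i => N (p.coeff i)) (fun _ _ => Nat.zero_le _)
      (natDegree_mem_support_of_nonzero h)

open Polynomial in
theorem pn_map {S : Type*} [CommRing S] {N' : S → ℕ} (hN : IsNrm N) (hN' : IsNrm N') (f : R →+* S)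
    (hf : ∀ a, N' (f a) ≤ N a) (p : R[X]) : pn N' (p.map f) ≤ pn N p := by
  rw [pn_eq hN' (p.map f) p.support (support_map_subset f p), pn]
  exact Finset.sum_le_sum fun i _ => by rw [coeff_map]; exact hf _

/-! ### Several variables -/

open MvPolynomial in
/-- Sum of the sizes of the coefficients. -/
def mn {σ : Type*} (N : R → ℕ) (p : MvPolynomial σ R) : ℕ := ∑ i ∈ p.support, N (p.coeff i)

section mv

open MvPolynomial

variable {σ : Type*}

theorem mn_eq (hN : IsNrm N) (p : MvPolynomial σ R) (s : Finset (σ →₀ ℕ)) (hs : p.support ⊆ s) :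
    mn N p = ∑ i ∈ s, N (p.coeff i) := by
  rw [mn]
  apply Finset.sum_subset hs
  intro i _ hi
  rw [notMem_support_iff.mp hi, hN.zero]

theorem mn_monomial (hN : IsNrm N) (n : σ →₀ ℕ) (a : R) : mn N (monomial n a) ≤ N a := by
  classical
  rw [mn_eq hN _ {n} (support_monomial_subset)]
  simp

theorem mn_add (hN : IsNrm N) (p q : MvPolynomial σ R) : mn N (p + q) ≤ mn N p + mn N q := by
  classical
  rw [mn_eq hN (p + q) (p.support ∪ q.support) support_add,
    mn_eq hN p (p.support ∪ q.support) Finset.subset_union_left,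
    mn_eq hN q (p.support ∪ q.support) Finset.subset_union_right, ← Finset.sum_add_distrib]
  exact Finset.sum_le_sum fun i _ => by rw [coeff_add]; exact hN.add _ _

theorem mn_sum (hN : IsNrm N) {ι : Type*} (s : Finset ι) (f : ι → MvPolynomial σ R) :
    mn N (∑ i ∈ s, f i) ≤ ∑ i ∈ s, mn N (f i) := by
  classical
  induction s using Finset.induction_on with
  | empty => simp [mn]
  | insert a s ha ih =>
    rw [Finset.sum_insert ha, Finset.sum_insert ha]
    exact (mn_add hN _ _).trans (Nat.add_le_add_left ih _)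

theorem IsNrm.mn (hN : IsNrm N) : IsNrm (RElim.mn (σ := σ) N) where
  zero := by simp [RElim.mn]
  one := by
    have : (1 : MvPolynomial σ R) = monomial 0 1 := rfl
    rw [this]
    exact (mn_monomial hN 0 1).trans hN.one
  add := mn_add hN
  neg := fun p => by
    rw [RElim.mn, RElim.mn, support_neg]
    exact Finset.sum_le_sum fun i _ => by rw [coeff_neg]; exact hN.neg _
  mul := fun p q => by
    classical
    rw [MvPolynomial.mul_def]
    simp only [MvPolynomial.sum_def]
    refine (mn_sum hN _ _).trans ?_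
    simp only [RElim.mn]
    rw [Finset.sum_mul]
    refine Finset.sum_le_sum fun i _ => ?_
    rw [Finset.mul_sum]
    refine (mn_sum hN _ _).trans (Finset.sum_le_sum fun j _ => ?_)
    exact (mn_monomial hN _ _).trans (hN.mul _ _)

theorem mn_C (hN : IsNrm N) (a : R) : mn N (C a : MvPolynomial σ R) ≤ N a := mn_monomial hN 0 a

theorem mn_X (hN : IsNrm N) (i : σ) : mn N (X i : MvPolynomial σ R) ≤ 1 :=
  (mn_monomial hN _ 1).trans hN.one

theorem mn_map {S : Type*} [CommRing S] {N' : S → ℕ} (hN : IsNrm N) (hN' : IsNrm N') (f : R →+* S)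
    (hf : ∀ a, N' (f a) ≤ N a) (p : MvPolynomial σ R) : mn N' (map f p) ≤ mn N p := by
  classical
  rw [mn_eq hN' (map f p) p.support (support_map_subset f p), mn]
  exact Finset.sum_le_sum fun i _ => by rw [coeff_map]; exact hf _

end mv

end Pool.Agent.RElim
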