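import Pool.Agent.RElim.Nrm

/-! Reduction of monomials modulo `v_i ^ 5 = E_i(v)`, `deg E_i ≤ 4`. -/

set_option autoImplicit false

namespace Pool.Agent.RElim

open Finset MvPolynomial

variable {σ : Type*} [Fintype σ] [DecidableEq σ]

/-- The value of a monomial with exponents below `5`. -/
def mon (v : σ → ℝ) (α : σ → Fin 5) : ℝ := ∏ i, v i ^ (α i : ℕ)

theorem exists_nf {R : Type*} [CommRing R] {N : R → ℕ} (hN : IsNrm N) (E : σ → MvPolynomial σ R)
    (W : ℕ) (hW : 1 ≤ W) (hdeg : ∀ i, ∀ b ∈ (E i).support, b.degree ≤ 4)
    (hE : ∀ i, mn N (E i) ≤ W) : ∀ (n : ℕ) (m : σ →₀ ℕ), m.degree ≤ n →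
    ∃ c : (σ → Fin 5) → R, ∑ α, N (c α) ≤ W ^ n ∧
      ∀ (ev : R →+* ℝ) (v : σ → ℝ), (∀ i, v i ^ 5 = (E i).eval₂ ev v) →
        ∏ i, v i ^ m i = ∑ α, ev (c α) * mon v α := by
  intro n
  induction n with
  | zero =>
    intro m hm
    have hm0 : m = 0 := by
      rw [← Finsupp.degree_eq_zero_iff]
      omega
    subst hm0
    refine ⟨Pi.single (fun _ => 0) 1, ?_, fun ev v _ => ?_⟩
    · rw [Finset.sum_eq_single (fun _ => 0)]
      · simpa using hN.one
      · intro b _ hb
        rw [Pi.single_eq_of_ne hb, hN.zero]
      · intro h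
        exact absurd (Finset.mem_univ _) h
    · rw [Finset.sum_eq_single (fun _ => 0)]
      · simp [mon]
      · intro b _ hb
        rw [Pi.single_eq_of_ne hb, map_zero, zero_mul]
      · intro h
        exact absurd (Finset.mem_univ _) h
  | succ n ih =>
    intro m hm
    by_cases hall : ∀ i, m i < 5
    · refine ⟨Pi.single (fun i => ⟨m i, hall i⟩) 1, ?_, fun ev v _ => ?_⟩
      · rw [Finset.sum_eq_single (fun i => ⟨m i, hall i⟩)]
        · rw [Pi.single_eq_same]
          exact hN.one.trans (Nat.one_le_pow _ _ hW)
        · intro b _ hb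
          rw [Pi.single_eq_of_ne hb, hN.zero]
        · intro h
          exact absurd (Finset.mem_univ _) h
      · rw [Finset.sum_eq_single (fun i => ⟨m i, hall i⟩)]
        · rw [Pi.single_eq_same, map_one, one_mul]
          rfl
        · intro b _ hb
          rw [Pi.single_eq_of_ne hb, map_zero, zero_mul]
        · intro h
          exact absurd (Finset.mem_univ _) h
    · push Not at hall
      obtain ⟨i, hi⟩ := hall
      set m' : σ →₀ ℕ := m - Finsupp.single i 5 with hm'
      have hmm' : m = m' + Finsupp.single i 5 := by
        ext j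
        rw [hm', Finsupp.add_apply, Finsupp.tsub_apply]
        by_cases hj : j = i
        · subst hj
          rw [Finsupp.single_eq_same]
          omega
        · rw [Finsupp.single_eq_of_ne hj]
          omega
      have hdm : m'.degree + 5 = m.degree := by
        conv_rhs => rw [hmm']
        rw [map_add, Finsupp.degree_single]
      have hdb : ∀ b ∈ (E i).support, (m' + b).degree ≤ n := by
        intro b hb
        rw [map_add]
        have := hdeg i b hb
        omega
      choose! c hc1 hc2 using fun b (hb : b ∈ (E i).support) => ih (m' + b) (hdb b hb)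
      refine ⟨fun α => ∑ b ∈ (E i).support, (E i).coeff b * c b α, ?_, fun ev v hv => ?_⟩
      · calc ∑ α, N (∑ b ∈ (E i).support, (E i).coeff b * c b α) ≤
              ∑ α, ∑ b ∈ (E i).support, N ((E i).coeff b) * N (c b α) :=
              Finset.sum_le_sum fun α _ => (hN.sum _ _).trans
                (Finset.sum_le_sum fun b _ => hN.mul _ _)
          _ = ∑ b ∈ (E i).support, N ((E i).coeff b) * ∑ α, N (c b α) := by
              rw [Finset.sum_comm]
              exact Finset.sum_congr rfl fun b _ => by rw [Finset.mul_sum]
          _ ≤ ∑ b ∈ (E i).support, N ((E i).coeff b) * W ^ n :=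
              Finset.sum_le_sum fun b hb => Nat.mul_le_mul_left _ (hc1 b hb)
          _ = mn N (E i) * W ^ n := by rw [mn, Finset.sum_mul]
          _ ≤ W * W ^ n := Nat.mul_le_mul_right _ (hE i)
          _ = W ^ (n + 1) := by rw [pow_succ]; ring
      · have h1 : ∏ j, v j ^ m j = v i ^ 5 * ∏ j, v j ^ m' j := by
          conv_lhs => rw [hmm']
          simp only [Finsupp.add_apply, pow_add]
          rw [Finset.prod_mul_distrib, mul_comm]
          congr 1
          rw [Finset.prod_eq_single i]
          · rw [Finsupp.single_eq_same]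
          · intro j _ hj
            rw [Finsupp.single_eq_of_ne hj, pow_zero]
          · intro h
            exact absurd (Finset.mem_univ _) h
        rw [h1, hv i, MvPolynomial.eval₂_eq', Finset.sum_mul]
        have h2 : ∀ b ∈ (E i).support,
            ev ((E i).coeff b) * (∏ j, v j ^ b j) * ∏ j, v j ^ m' j =
              ∑ α, ev ((E i).coeff b * c b α) * mon v α := by
          intro b hb
          have h3 := hc2 b hb ev v hv
          simp only [map_mul, mul_assoc]
          rw [← Finset.mul_sum, ← h3]
          congr 1
          simp only [Finsupp.add_apply, pow_add]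
          rw [Finset.prod_mul_distrib, mul_comm]
        rw [Finset.sum_congr rfl h2, Finset.sum_comm]
        refine Finset.sum_congr rfl fun α _ => ?_
        rw [map_sum, Finset.sum_mul]

end Pool.Agent.RElim
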