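import Pool.Agent.RElim.NF

/-! The characteristic relation over a ring of parameters. -/

set_option autoImplicit false

namespace Pool.Agent.RElim.Par

open Finset

variable {A : Type} [CommRing A]

/-- `A[τ][K]` -/
abbrev R0 (A : Type) [CommRing A] := Polynomial (Polynomial A)
/-- `A[y][τ][K]` -/
abbrev R3 (A : Type) [CommRing A] := Polynomial (Polynomial (Polynomial A))

/-- size on `A[τ][K]` -/
noncomputable def N0 (NA : A → ℕ) : R0 A → ℕ := pn (pn NA)
/-- size on `A[y][τ][K]` -/
noncomputable def N3 (NA : A → ℕ) : R3 A → ℕ := pn (pn (pn NA))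

variable {NA : A → ℕ}

theorem isNrm_N0 (hA : IsNrm NA) : IsNrm (N0 NA) := hA.pn.pn
theorem isNrm_N3 (hA : IsNrm NA) : IsNrm (N3 NA) := hA.pn.pn.pn

/-- evaluation of `A[y]` -/
noncomputable def ev1 (e : A →+* ℝ) (y : ℝ) : Polynomial A →+* ℝ := Polynomial.eval₂RingHom e y
/-- evaluation of `A[y][τ]` -/
noncomputable def ev2 (e : A →+* ℝ) (y τ : ℝ) : Polynomial (Polynomial A) →+* ℝ :=
  Polynomial.eval₂RingHom (ev1 e y) τ
/-- evaluation of `A[y][τ][K]` -/
noncomputable def ev3 (e : A →+* ℝ) (y τ K : ℝ) : R3 A →+* ℝ :=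
  Polynomial.eval₂RingHom (ev2 e y τ) K

/-- the inclusion -/
noncomputable def incl (A : Type) [CommRing A] : R0 A →+* R3 A :=
  Polynomial.mapRingHom (Polynomial.mapRingHom (Polynomial.C : A →+* Polynomial A))

theorem ev3_incl (e : A →+* ℝ) (y τ K : ℝ) (a : R0 A) :
    ev3 e y τ K (incl A a) = ev2 e τ K a := by
  have h : (ev3 e y τ K).comp (incl A) = ev2 e τ K := by
    apply Polynomial.ringHom_ext
    · intro a
      have h2 : ((ev3 e y τ K).comp (incl A)).comp Polynomial.C =
          (ev2 e τ K).comp Polynomial.C := by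
        apply Polynomial.ringHom_ext
        · intro z
          simp [ev3, ev2, ev1, incl]
        · simp [ev3, ev2, ev1, incl]
      exact RingHom.congr_fun h2 a
    · simp [ev3, ev2, incl]
  exact RingHom.congr_fun h a

theorem N3_incl (hA : IsNrm NA) (a : R0 A) : N3 NA (incl A a) ≤ N0 NA a := by
  refine pn_map (R := Polynomial A) (S := Polynomial (Polynomial A)) (N := pn NA)
    (N' := pn (pn NA)) hA.pn hA.pn.pn
    (Polynomial.mapRingHom (Polynomial.C : A →+* Polynomial A)) (fun b => ?_) a
  exact pn_map (R := A) (S := Polynomial A) (N := NA) (N' := pn NA) hA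
    hA.pn Polynomial.C (fun c => pn_C hA c) b

variable {σ : Type*} [Fintype σ] [DecidableEq σ]

/-- the inclusion of the coefficients -/
noncomputable def cst (A : Type) [CommRing A] : A →+* R0 A :=
  (Polynomial.C : Polynomial A →+* R0 A).comp Polynomial.C

open MvPolynomial in
/-- the right hand sides -/
noncomputable def EE (h : MvPolynomial σ A) (t i : σ) : MvPolynomial σ (R0 A) :=
  C (Polynomial.C Polynomial.X : R0 A) *
    (C (if i = t then 1 else 0 : R0 A) - C (Polynomial.X : R0 A) * map (cst A) (pderiv i h))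

omit [Fintype σ] in
open MvPolynomial in
theorem eval_EE (e : A →+* ℝ) (h : MvPolynomial σ A) (t i : σ) (τ K : ℝ) (v : σ → ℝ) :
    (EE h t i).eval₂ (ev2 e τ K) v =
      τ * ((if i = t then 1 else 0) - K * (pderiv i h).eval₂ e v) := by
  have hh : (map (cst A) (pderiv i h)).eval₂ (ev2 e τ K) v = (pderiv i h).eval₂ e v := by
    rw [eval₂_map]
    congr 1
    ext a
    simp [cst, ev2, ev1]
  have h1 : ev2 e τ K (Polynomial.C Polynomial.X) = τ := by simp [ev2, ev1]
  have h2 : ev2 e τ K Polynomial.X = K := by simp [ev2]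
  rw [EE, eval₂_mul, eval₂_sub, eval₂_mul, eval₂_C, eval₂_C, eval₂_C, hh, h1, h2]
  split_ifs <;> simp

omit [Fintype σ] [DecidableEq σ] in
open MvPolynomial in
theorem coeff_pderiv_ne {h : MvPolynomial σ A} {i : σ} {b : σ →₀ ℕ}
    (hb : b ∈ (pderiv i h).support) : b + Finsupp.single i 1 ∈ h.support := by
  rw [mem_support_iff] at hb ⊢
  intro h0
  apply hb
  rw [coeff_pderiv, h0, zero_mul]

omit [Fintype σ] in
open MvPolynomial in
theorem degree_EE (h : MvPolynomial σ A) (hdeg : ∀ b ∈ h.support, b.degree ≤ 4) (t i : σ) :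
    ∀ b ∈ (EE h t i).support, b.degree ≤ 4 := by
  intro b hb
  rw [EE, mem_support_iff, coeff_C_mul, coeff_sub, coeff_C_mul, coeff_map, coeff_C] at hb
  by_cases h0 : b = 0
  · subst h0; simp
  · rw [if_neg (Ne.symm h0)] at hb
    have h1 : b ∈ (pderiv i h).support := by
      rw [mem_support_iff]
      intro h1
      apply hb
      rw [h1]
      simp
    have h2 := hdeg _ (coeff_pderiv_ne h1)
    rw [map_add, Finsupp.degree_single] at h2
    omega

omit [Fintype σ] in
open MvPolynomial in
theorem mn_pderiv (hA : IsNrm NA) (h : MvPolynomial σ A)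
    (hdeg : ∀ b ∈ h.support, b.degree ≤ 4) (i : σ) :
    mn NA (pderiv i h) ≤ 4 * mn NA h := by
  classical
  rw [mn, mn, Finset.mul_sum]
  let f : (σ →₀ ℕ) → (σ →₀ ℕ) := fun b => b + Finsupp.single i 1
  have hf : Function.Injective f := fun a b hab => add_right_cancel hab
  calc ∑ b ∈ (pderiv i h).support, NA (coeff b (pderiv i h)) ≤
        ∑ b ∈ (pderiv i h).support, 4 * NA (coeff (f b) h) := by
        refine Finset.sum_le_sum fun b hb => ?_
        have h1 := hdeg _ (coeff_pderiv_ne hb)
        rw [coeff_pderiv, mul_comm]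
        have h2 : (b + Finsupp.single i 1 : σ →₀ ℕ) i ≤ (b + Finsupp.single i 1 : σ →₀ ℕ).degree :=
          Finsupp.le_degree i _
        rw [Finsupp.add_apply, Finsupp.single_eq_same] at h2
        have h3 : NA ((b i : A) + 1) ≤ 4 := by
          have h4 := hA.natCast (b i + 1)
          push_cast at h4
          omega
        exact (hA.mul _ _).trans (Nat.mul_le_mul_right _ h3)
    _ = ∑ b ∈ (pderiv i h).support.image f, 4 * NA (coeff b h) := by
        rw [Finset.sum_image fun a _ b _ hab => hf hab]
    _ ≤ ∑ b ∈ h.support, 4 * NA (coeff b h) := by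
        apply Finset.sum_le_sum_of_subset
        intro b hb
        rw [Finset.mem_image] at hb
        obtain ⟨a, ha, rfl⟩ := hb
        exact coeff_pderiv_ne ha

omit [Fintype σ] in
open MvPolynomial in
theorem mn_EE (hA : IsNrm NA) (h : MvPolynomial σ A) (hdeg : ∀ b ∈ h.support, b.degree ≤ 4)
    (t i : σ) : mn (N0 NA) (EE h t i) ≤ 1 + 4 * mn NA h := by
  have hN := isNrm_N0 hA
  have hM := hN.mn (σ := σ)
  have hX : N0 NA (Polynomial.X : R0 A) ≤ 1 := pn_X hA.pn
  have hCX : N0 NA (Polynomial.C Polynomial.X : R0 A) ≤ 1 :=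
    (pn_C hA.pn _).trans (pn_X hA)
  have hcast : ∀ a : A, N0 NA (cst A a) ≤ NA a := by
    intro a
    exact (pn_C hA.pn _).trans (pn_C hA _)
  rw [EE]
  refine (hM.mul _ _).trans ?_
  have h1 : mn (N0 NA) (C (Polynomial.C Polynomial.X : R0 A) : MvPolynomial σ (R0 A)) ≤ 1 :=
    (mn_C hN _).trans hCX
  have h2 : mn (N0 NA) (C (if i = t then 1 else 0 : R0 A) - C (Polynomial.X : R0 A) *
      map (cst A) (pderiv i h) : MvPolynomial σ (R0 A)) ≤ 1 + 4 * mn NA h := by
    refine (hM.sub _ _).trans (Nat.add_le_add ?_ ?_)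
    · refine (mn_C hN _).trans ?_
      split_ifs
      · exact hN.one
      · rw [hN.zero]; exact Nat.zero_le _
    · refine (hM.mul _ _).trans ?_
      have h3 : mn (N0 NA) (C (Polynomial.X : R0 A) : MvPolynomial σ (R0 A)) ≤ 1 :=
        (mn_C hN _).trans hX
      have h4 : mn (N0 NA) (map (cst A) (pderiv i h)) ≤ mn NA (pderiv i h) :=
        mn_map hA hN _ hcast _
      calc _ ≤ 1 * (4 * mn NA h) := Nat.mul_le_mul h3 (h4.trans (mn_pderiv hA h hdeg i))
        _ = _ := one_mul _
  calc _ ≤ 1 * (1 + 4 * mn NA h) := Nat.mul_le_mul h1 h2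
    _ = _ := one_mul _

/-- the bound -/
def Bd (n a : ℕ) : ℕ := (5 ^ n).factorial * (1 + (1 + 4 * a) ^ (4 * n + 1)) ^ (5 ^ n)

open MvPolynomial in
/-- the characteristic relation satisfied by a coordinate of the critical points -/
theorem exists_chi [Nontrivial A] (hA : IsNrm NA) (h : MvPolynomial σ A)
    (hdeg : ∀ b ∈ h.support, b.degree ≤ 4) (t : σ) :
    ∃ χ : R3 A, χ ≠ 0 ∧
      N3 NA χ ≤ Bd (Fintype.card σ) (mn NA h) ∧
      ∀ (e : A →+* ℝ) (τ K : ℝ) (v : σ → ℝ),
        (∀ i, v i ^ 5 = τ * ((if i = t then 1 else 0) - K * (pderiv i h).eval₂ e v)) →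
          ev3 e (v t) τ K χ = 0 := by
  classical
  have hN0 := isNrm_N0 hA
  have hN3 := isNrm_N3 hA
  set W := 1 + 4 * mn NA h with hW
  have hnf := exists_nf hN0 (EE h t) W (by omega) (degree_EE h hdeg t) (mn_EE hA h hdeg t)
    (4 * Fintype.card σ + 1)
  have hdα : ∀ α : σ → Fin 5,
      (Finsupp.equivFunOnFinite.symm (fun i => (α i : ℕ)) + Finsupp.single t 1).degree ≤
        4 * Fintype.card σ + 1 := by
    intro α
    rw [map_add, Finsupp.degree_single, Finsupp.degree_eq_sum]
    have : ∑ i, (Finsupp.equivFunOnFinite.symm (fun i => (α i : ℕ))) i ≤ ∑ _i : σ, 4 := by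
      refine Finset.sum_le_sum fun i _ => ?_
      simp only [Finsupp.equivFunOnFinite_symm_apply_apply]
      have := (α i).2
      omega
    rw [Finset.sum_const, Finset.card_univ, smul_eq_mul] at this
    omega
  choose c hc1 hc2 using fun α => hnf _ (hdα α)
  let M : Matrix (σ → Fin 5) (σ → Fin 5) (R0 A) := Matrix.of fun α β => c α β
  let Y : R3 A := Polynomial.C (Polynomial.C Polynomial.X)
  let χ : R3 A := (Matrix.diagonal (fun _ => Y) - M.map (incl A)).det
  refine ⟨χ, ?_, ?_, ?_⟩
  · -- nonzero
    let ψ : R3 A →+* Polynomial A :=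
      Polynomial.eval₂RingHom (Polynomial.eval₂RingHom (RingHom.id (Polynomial A)) 0) 0
    let ψ0 : R0 A →+* A := Polynomial.eval₂RingHom (Polynomial.eval₂RingHom (RingHom.id A) 0) 0
    have hψ : ∀ a : R0 A, ψ (incl A a) = Polynomial.C (ψ0 a) := by
      intro a
      have h : ψ.comp (incl A) = (Polynomial.C).comp ψ0 := by
        apply Polynomial.ringHom_ext
        · intro a
          have h2 : (ψ.comp (incl A)).comp Polynomial.C =
              ((Polynomial.C).comp ψ0).comp Polynomial.C := by
            apply Polynomial.ringHom_ext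
            · intro z
              simp [ψ, ψ0, incl]
            · simp [ψ, ψ0, incl]
          exact RingHom.congr_fun h2 a
        · simp [ψ, ψ0, incl]
      exact RingHom.congr_fun h a
    have h1 : ψ χ = (M.map ψ0).charpoly := by
      refine (RingHom.map_det ψ (Matrix.diagonal (fun _ => Y) - M.map (incl A))).trans ?_
      rw [Matrix.charpoly]
      congr 1
      refine Matrix.ext fun α β => ?_
      have e1 : ψ (Matrix.diagonal (fun _ => Y) α β - incl A (M α β)) =
          ψ (Matrix.diagonal (fun _ => Y) α β) - ψ (incl A (M α β)) := map_sub ψ _ _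
      refine (e1.trans ?_)
      rw [hψ, Matrix.charmatrix_apply, Matrix.map_apply]
      by_cases hab : α = β
      · subst hab
        simp [Y, ψ]
      · simp [hab]
    intro h0
    rw [h0, map_zero] at h1
    exact (Matrix.charpoly_monic _).ne_zero h1.symm
  · -- the size
    have h1 := hN3.det (Matrix.diagonal (fun _ => Y) - M.map (incl A))
      (1 + W ^ (4 * Fintype.card σ + 1)) (fun α β => by
        rw [Matrix.sub_apply]
        refine (hN3.sub _ _).trans (Nat.add_le_add ?_ ?_)
        · rw [Matrix.diagonal_apply]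
          split_ifs
          · exact (pn_C hA.pn.pn _).trans ((pn_C hA.pn _).trans
              (pn_X hA))
          · rw [hN3.zero]; exact Nat.zero_le _
        · rw [Matrix.map_apply]
          refine (N3_incl hA _).trans ((Finset.single_le_sum (f := fun β => N0 NA (c α β))
            (fun _ _ => Nat.zero_le _) (Finset.mem_univ β)).trans (hc1 α)))
    simpa [Bd] using h1
  · -- the relation
    intro e τ K v hv
    have hv' : ∀ i, v i ^ 5 = (EE h t i).eval₂ (ev2 e τ K) v := fun i => by
      rw [eval_EE]; exact hv i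
    refine (RingHom.map_det (ev3 e (v t) τ K)
      (Matrix.diagonal (fun _ => Y) - M.map (incl A))).trans ?_
    rw [RingHom.mapMatrix_apply]
    apply Matrix.exists_mulVec_eq_zero_iff.mp
    refine ⟨mon v, ?_, ?_⟩
    · intro h0
      have := congrFun h0 (fun _ => 0)
      simp [mon] at this
    · ext α
      have h1 := hc2 α (ev2 e τ K) v hv'
      have h2 : ∏ i, v i ^ (Finsupp.equivFunOnFinite.symm (fun i => (α i : ℕ)) +
          Finsupp.single t 1 : σ →₀ ℕ) i = v t * mon v α := by
        simp only [Finsupp.add_apply, pow_add, Finsupp.equivFunOnFinite_symm_apply_apply]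
        rw [Finset.prod_mul_distrib, mul_comm]
        congr 1
        rw [Finset.prod_eq_single t]
        · rw [Finsupp.single_eq_same, pow_one]
        · intro j _ hj
          rw [Finsupp.single_eq_of_ne hj, pow_zero]
        · intro h
          exact absurd (Finset.mem_univ _) h
      rw [h2] at h1
      simp only [Matrix.mulVec, dotProduct, Matrix.map_apply, Matrix.sub_apply, Pi.zero_apply]
      have e1 : ∀ β, ev3 e (v t) τ K (Matrix.diagonal (fun _ => Y) α β - incl A (M α β)) =
          ev3 e (v t) τ K (Matrix.diagonal (fun _ => Y) α β) - ev2 e τ K (c α β) := by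
        intro β
        refine (map_sub (ev3 e (v t) τ K) _ _).trans ?_
        rw [ev3_incl]
        rfl
      simp only [e1, sub_mul]
      rw [Finset.sum_sub_distrib]
      have h3 : ∑ β, ev3 e (v t) τ K (Matrix.diagonal (fun _ => Y) α β) * mon v β =
          v t * mon v α := by
        rw [Finset.sum_eq_single α]
        · rw [Matrix.diagonal_apply_eq]
          simp [Y, ev3, ev2, ev1]
        · intro β _ hβ
          rw [Matrix.diagonal_apply_ne _ (Ne.symm hβ), map_zero, zero_mul]
        · intro h
          exact absurd (Finset.mem_univ _) h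
      rw [h3, h1]
      exact sub_self _

end Pool.Agent.RElim.Par
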