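import Pool.Agent.RElim.PChi
import Pool.Agent.RElim.Sup

/-! The supremum of a coordinate on a real zero set with parameters. -/

set_option autoImplicit false

namespace Pool.Agent.RElim.Par

open Finset Filter Topology

variable {A : Type} [CommRing A] {NA : A → ℕ}

theorem tendsto_ev1 (e : A →+* ℝ) (y : ℕ → ℝ) (y' : ℝ) (hy : Tendsto y atTop (𝓝 y'))
    (a : Polynomial A) : Tendsto (fun j => ev1 e (y j) a) atTop (𝓝 (ev1 e y' a)) := by
  have h : Continuous (fun x : ℝ => ev1 e x a) := by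
    have : (fun x : ℝ => ev1 e x a) = fun x => Polynomial.eval x (a.map e) := by
      funext x
      simp [ev1, Polynomial.eval₂_eq_eval_map]
    rw [this]
    exact Polynomial.continuous _
  exact (h.tendsto y').comp hy

theorem tendsto_ev2 (e : A →+* ℝ) (y : ℕ → ℝ) (y' τ : ℝ) (hy : Tendsto y atTop (𝓝 y'))
    (a : Polynomial (Polynomial A)) :
    Tendsto (fun j => ev2 e (y j) τ a) atTop (𝓝 (ev2 e y' τ a)) := by
  have h : ∀ z : ℝ, ev2 e z τ a = ∑ i ∈ range (a.natDegree + 1), ev1 e z (a.coeff i) * τ ^ i := by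
    intro z
    rw [ev2, Polynomial.coe_eval₂RingHom, Polynomial.eval₂_eq_sum_range]
  simp only [h]
  exact tendsto_finsetSum _ fun i _ => (tendsto_ev1 e y y' hy _).mul_const _

/-- the size of a real root of a polynomial with coefficients in a ring of parameters -/
theorem root_mul_le (hA : IsNrm NA) (p : Polynomial A) (e : A →+* ℝ) (he : ∀ a, |e a| ≤ NA a)
    (s : ℝ) (hs : ev1 e s p = 0) : |e p.leadingCoeff| * s ≤ pn NA p := by
  classical
  have hlead : (NA p.leadingCoeff : ℝ) ≤ pn NA p := by exact_mod_cast leadingCoeff_le_pn hA p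
  rcases le_or_gt s 1 with hs1 | hs1
  · have h1 := mul_le_mul_of_nonneg_left hs1 (abs_nonneg (e p.leadingCoeff))
    rw [mul_one] at h1
    exact h1.trans ((he _).trans hlead)
  have hs0 : 0 < s := by linarith
  set d := p.natDegree with hd
  have h2 := hs
  rw [ev1, Polynomial.coe_eval₂RingHom, Polynomial.eval₂_eq_sum_range, Finset.sum_range_succ] at h2
  have h3 : pn NA p = ∑ i ∈ range d, NA (p.coeff i) + NA p.leadingCoeff := by
    rw [pn_eq hA p (range (d + 1)) (by
      rw [hd]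
      exact Polynomial.supp_subset_range (Nat.lt_succ_self _)), Finset.sum_range_succ]
    rfl
  have hlc : p.coeff p.natDegree = p.leadingCoeff := rfl
  rw [hlc, ← hd] at h2
  rcases Nat.eq_zero_or_pos d with hd0 | hd0
  · rw [hd0] at h2
    simp at h2
    rw [h2, abs_zero, zero_mul]
    exact Nat.cast_nonneg _
  have h4 : |e p.leadingCoeff| * s ^ d ≤ (∑ i ∈ range d, (NA (p.coeff i) : ℝ)) * s ^ (d - 1) := by
    have h5 : e p.leadingCoeff * s ^ d = -∑ i ∈ range d, e (p.coeff i) * s ^ i := by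
      linarith
    calc |e p.leadingCoeff| * s ^ d = |e p.leadingCoeff * s ^ d| := by
          rw [abs_mul, abs_of_pos (pow_pos hs0 d)]
      _ = |∑ i ∈ range d, e (p.coeff i) * s ^ i| := by rw [h5, abs_neg]
      _ ≤ ∑ i ∈ range d, |e (p.coeff i) * s ^ i| := Finset.abs_sum_le_sum_abs _ _
      _ ≤ ∑ i ∈ range d, (NA (p.coeff i) : ℝ) * s ^ (d - 1) := by
          refine Finset.sum_le_sum fun i hi => ?_
          rw [mem_range] at hi
          rw [abs_mul, abs_of_pos (pow_pos hs0 i)]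
          exact mul_le_mul (he _) (pow_le_pow_right₀ hs1.le (by omega)) (by positivity)
            (Nat.cast_nonneg _)
      _ = _ := by rw [Finset.sum_mul]
  have h6 : s ^ d = s ^ (d - 1) * s := by
    rw [← pow_succ]
    congr 1
    omega
  have h7 : (∑ i ∈ range d, (NA (p.coeff i) : ℝ)) ≤ pn NA p := by
    rw [h3]
    push_cast
    have : (0 : ℝ) ≤ (NA p.leadingCoeff : ℝ) := Nat.cast_nonneg _
    linarith
  have hpow : 0 < s ^ (d - 1) := pow_pos hs0 _
  have h8 : s ^ (d - 1) * (|e p.leadingCoeff| * s) ≤ s ^ (d - 1) * pn NA p := by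
    calc s ^ (d - 1) * (|e p.leadingCoeff| * s) = |e p.leadingCoeff| * s ^ d := by rw [h6]; ring
      _ ≤ _ := h4
      _ ≤ pn NA p * s ^ (d - 1) := mul_le_mul_of_nonneg_right h7 hpow.le
      _ = _ := mul_comm _ _
  exact le_of_mul_le_mul_left h8 hpow

variable {σ : Type*} [Fintype σ] [DecidableEq σ]

omit [Fintype σ] in
open MvPolynomial in
theorem hasDerivAt_update (e : A →+* ℝ) (p : MvPolynomial σ A) (v : σ → ℝ) (i : σ) (s : ℝ) :
    HasDerivAt (fun s => p.eval₂ e (Function.update v i s))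
      ((pderiv i p).eval₂ e (Function.update v i s)) s := by
  induction p using MvPolynomial.induction_on with
  | C a => simpa using hasDerivAt_const s (e a)
  | add p q hp hq =>
    simp only [map_add, eval₂_add]
    exact hp.add hq
  | mul_X p j hp =>
    have hX : HasDerivAt (fun s => (X j : MvPolynomial σ A).eval₂ e (Function.update v i s))
        ((pderiv i (X j : MvPolynomial σ A)).eval₂ e (Function.update v i s)) s := by
      by_cases hij : j = i
      · subst hij
        simpa using hasDerivAt_id' s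
      · rw [pderiv_X_of_ne hij]
        simp only [eval₂_X, eval₂_zero, Function.update_of_ne hij]
        exact hasDerivAt_const s _
    have := hp.mul hX
    simp only [eval₂_mul, Derivation.leibniz, smul_eq_mul, eval₂_add]
    refine this.congr_deriv ?_
    ring

/-- The penalised function. -/
noncomputable def Phi (e : A →+* ℝ) (h : MvPolynomial σ A) (t : σ) (τ K : ℝ) (v : σ → ℝ) : ℝ :=
  -v t + K * h.eval₂ e v + (∑ i, v i ^ 6) / (6 * τ)

open MvPolynomial in
theorem crit (e : A →+* ℝ) (h : MvPolynomial σ A) (t : σ) (τ K : ℝ) (hτ : 0 < τ) (v : σ → ℝ)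
    (hv : ∀ w, Phi e h t τ K v ≤ Phi e h t τ K w) (i : σ) :
    v i ^ 5 = τ * ((if i = t then 1 else 0) - K * (pderiv i h).eval₂ e v) := by
  have h1 : HasDerivAt (fun s => Phi e h t τ K (Function.update v i s))
      (-(if i = t then 1 else 0) + K * (pderiv i h).eval₂ e (Function.update v i (v i)) +
        (6 * v i ^ 5) / (6 * τ)) (v i) := by
    have ha : HasDerivAt (fun s => -(Function.update v i s t)) (-(if i = t then 1 else 0)) (v i) := by
      refine HasDerivAt.neg ?_
      by_cases hit : i = t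
      · subst hit
        simpa using hasDerivAt_id' (v i)
      · rw [if_neg hit]
        simp only [Function.update_of_ne (Ne.symm hit)]
        exact hasDerivAt_const _ _
    have hb := (hasDerivAt_update e h v i (v i)).const_mul K
    have hc : HasDerivAt (fun s => ∑ j, (Function.update v i s) j ^ 6) (6 * v i ^ 5) (v i) := by
      have hj : ∀ j ∈ (Finset.univ : Finset σ), HasDerivAt (fun s => (Function.update v i s) j ^ 6)
          (if j = i then 6 * v i ^ 5 else 0) (v i) := by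
        intro j _
        by_cases hij : j = i
        · subst hij
          rw [if_pos rfl]
          simpa using (hasDerivAt_pow 6 (v j))
        · rw [if_neg hij]
          simp only [Function.update_of_ne hij]
          exact hasDerivAt_const _ _
      have := HasDerivAt.fun_sum hj
      simpa using this
    exact (ha.add hb).add (hc.div_const _)
  have h2 : IsLocalMin (fun s => Phi e h t τ K (Function.update v i s)) (v i) := by
    apply Filter.Eventually.of_forall
    intro s
    show Phi e h t τ K (Function.update v i (v i)) ≤ Phi e h t τ K (Function.update v i s)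
    rw [Function.update_eq_self]
    exact hv _
  have h3 := h2.hasDerivAt_eq_zero h1
  rw [Function.update_eq_self] at h3
  have h4 : (6 * v i ^ 5) / (6 * τ) = v i ^ 5 / τ := by
    field_simp
  rw [h4] at h3
  have h5 : v i ^ 5 / τ = (if i = t then 1 else 0) - K * (pderiv i h).eval₂ e v := by linarith
  rw [← h5]
  field_simp

omit [Fintype σ] [DecidableEq σ] in
open MvPolynomial in
theorem continuous_eval₂ (e : A →+* ℝ) (p : MvPolynomial σ A) :
    Continuous fun v : σ → ℝ => p.eval₂ e v := by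
  have : (fun v : σ → ℝ => p.eval₂ e v) = fun v => eval v (map e p) := by
    funext v
    rw [eval_map]
  rw [this]
  exact MvPolynomial.continuous_eval _

omit [DecidableEq σ] in
theorem continuous_Phi (e : A →+* ℝ) (h : MvPolynomial σ A) (t : σ) (τ K : ℝ) :
    Continuous (Phi e h t τ K) := by
  unfold Phi
  have := continuous_eval₂ e h
  fun_prop

omit [DecidableEq σ] in
/-- growth of the penalty -/
theorem box_of_Phi (e : A →+* ℝ) (h : MvPolynomial σ A) (hnn : ∀ v : σ → ℝ, 0 ≤ h.eval₂ e v) (t : σ)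
    (τ K C : ℝ) (hτ : 0 < τ) (hK : 0 ≤ K) (v : σ → ℝ) (hv : Phi e h t τ K v ≤ C) :
    ∀ i, |v i| ≤ max 1 (max (12 * τ) C) := by
  by_contra hcon
  push Not at hcon
  obtain ⟨i₀, hi₀⟩ := hcon
  obtain ⟨i, -, hi⟩ := Finset.exists_max_image Finset.univ (fun i => |v i|) ⟨i₀, Finset.mem_univ _⟩
  set r := |v i| with hr
  have hr0 : max 1 (max (12 * τ) C) < r := lt_of_lt_of_le hi₀ (hi i₀ (Finset.mem_univ _))
  have h1 : 1 < r := lt_of_le_of_lt (le_max_left _ _) hr0
  have h2 : 12 * τ < r := lt_of_le_of_lt ((le_max_left _ _).trans (le_max_right _ _)) hr0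
  have h3 : C < r := lt_of_le_of_lt ((le_max_right _ _).trans (le_max_right _ _)) hr0
  have h4 : -r ≤ -v t := by
    have := hi t (Finset.mem_univ _)
    have := le_abs_self (v t)
    linarith
  have h5 : r ^ 6 ≤ ∑ j, v j ^ 6 := by
    have : r ^ 6 = v i ^ 6 := by
      rw [hr]
      have := sq_abs (v i)
      calc |v i| ^ 6 = (|v i| ^ 2) ^ 3 := by ring
        _ = (v i ^ 2) ^ 3 := by rw [this]
        _ = v i ^ 6 := by ring
    rw [this]
    exact Finset.single_le_sum (f := fun j => v j ^ 6) (fun j _ => by positivity) (Finset.mem_univ i)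
  have h6 : 2 * r ≤ (∑ j, v j ^ 6) / (6 * τ) := by
    rw [le_div_iff₀ (by positivity)]
    have h7 : r ^ 2 ≤ r ^ 6 := pow_le_pow_right₀ h1.le (by norm_num)
    nlinarith
  have h7 : 0 ≤ K * h.eval₂ e v := mul_nonneg hK (hnn v)
  unfold Phi at hv
  linarith

omit [DecidableEq σ] in
theorem exists_min (e : A →+* ℝ) (h : MvPolynomial σ A) (hnn : ∀ v : σ → ℝ, 0 ≤ h.eval₂ e v) (t : σ)
    (τ K : ℝ) (hτ : 0 < τ) (hK : 0 ≤ K) : ∃ v, ∀ w, Phi e h t τ K v ≤ Phi e h t τ K w := by
  apply (continuous_Phi e h t τ K).exists_forall_le' 0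
  have hc : IsCompact (Set.pi Set.univ fun _ : σ =>
      Set.Icc (-(max 1 (max (12 * τ) (Phi e h t τ K 0)))) (max 1 (max (12 * τ) (Phi e h t τ K 0)))) :=
    isCompact_univ_pi fun _ => isCompact_Icc
  filter_upwards [hc.compl_mem_cocompact] with v hv
  by_contra hcon
  push Not at hcon
  apply hv
  rw [Set.mem_univ_pi]
  intro i
  exact abs_le.mp (box_of_Phi e h hnn t τ K _ hτ hK v hcon.le i)

/-- for fixed `τ` -/
theorem exists_tau (e : A →+* ℝ) (h : MvPolynomial σ A) (hnn : ∀ v : σ → ℝ, 0 ≤ h.eval₂ e v) (t : σ)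
    (χ : R3 A) (hχ : ∀ (τ K : ℝ) (v : σ → ℝ),
        (∀ i, v i ^ 5 = τ * ((if i = t then 1 else 0) -
          K * (MvPolynomial.pderiv i h).eval₂ e v)) →
          ev3 e (v t) τ K χ = 0) (τ : ℝ) (hτ : 0 < τ) (w₀ : σ → ℝ) (hw₀ : h.eval₂ e w₀ = 0) :
    ∃ v : σ → ℝ, h.eval₂ e v = 0 ∧ ev2 e (v t) τ χ.leadingCoeff = 0 ∧
      ∀ w, h.eval₂ e w = 0 → w t - (∑ i, w i ^ 6) / (6 * τ) ≤ v t := by
  choose V hV using fun K : ℕ => exists_min e h hnn t τ K hτ (Nat.cast_nonneg K)
  set C := -w₀ t + (∑ i, w₀ i ^ 6) / (6 * τ) with hC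
  have hVC : ∀ K : ℕ, Phi e h t τ K (V K) ≤ C := by
    intro K
    refine (hV K w₀).trans (le_of_eq ?_)
    rw [Phi, hw₀, hC]
    ring
  set R := max 1 (max (12 * τ) C) with hR
  have hbox : ∀ K, V K ∈ Set.pi Set.univ fun _ : σ => Set.Icc (-R) R := by
    intro K
    rw [Set.mem_univ_pi]
    intro i
    exact abs_le.mp (box_of_Phi e h hnn t τ K C hτ (Nat.cast_nonneg K) (V K) (hVC K) i)
  have hc : IsCompact (Set.pi Set.univ fun _ : σ => Set.Icc (-R) R) :=
    isCompact_univ_pi fun _ => isCompact_Icc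
  obtain ⟨v, -, φ, hφ, hlim⟩ := hc.tendsto_subseq hbox
  have hlimi : ∀ i, Tendsto (fun j => V (φ j) i) atTop (𝓝 (v i)) := fun i =>
    (tendsto_pi_nhds.mp hlim) i
  have hφtop : Tendsto (fun j => ((φ j : ℕ) : ℝ)) atTop atTop :=
    tendsto_natCast_atTop_atTop.comp hφ.tendsto_atTop
  have hh : Tendsto (fun j => h.eval₂ e (V (φ j))) atTop
      (𝓝 (h.eval₂ e v)) := ((continuous_eval₂ e h).tendsto v).comp hlim
  have hv0 : h.eval₂ e v = 0 := by
    refine tendsto_nhds_unique hh ?_
    have hup : ∀ᶠ j in atTop, h.eval₂ e (V (φ j)) ≤ (C + R) / (φ j : ℝ) := by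
      filter_upwards [hφtop.eventually_gt_atTop 0] with j hj
      rw [le_div_iff₀ hj]
      have h1 := hVC (φ j)
      unfold Phi at h1
      have h2 : V (φ j) t ≤ R := ((Set.mem_univ_pi.mp (hbox (φ j))) t).2
      have h3 : 0 ≤ (∑ i, V (φ j) i ^ 6) / (6 * τ) := by
        have : 0 ≤ ∑ i, V (φ j) i ^ 6 := Finset.sum_nonneg fun i _ => by positivity
        positivity
      rw [mul_comm]
      linarith
    have hlow : ∀ᶠ j in atTop, (0 : ℝ) ≤ h.eval₂ e (V (φ j)) :=
      Filter.Eventually.of_forall fun j => hnn _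
    exact tendsto_of_tendsto_of_tendsto_of_le_of_le' tendsto_const_nhds
      (hφtop.const_div_atTop (C + R)) hlow hup
  refine ⟨v, hv0, ?_, ?_⟩
  · exact lead_limit χ (fun j => ev2 e (V (φ j) t) τ) (ev2 e (v t) τ)
      (fun a => tendsto_ev2 e _ _ τ (hlimi t) a) (fun j => (φ j : ℝ)) hφtop (fun j =>
        hχ τ (φ j) (V (φ j)) (crit e h t τ (φ j) hτ (V (φ j)) (hV (φ j))))
  · intro w hw
    have h1 : ∀ j, w t - (∑ i, w i ^ 6) / (6 * τ) ≤ V (φ j) t := by
      intro j
      have h1 := hV (φ j) w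
      unfold Phi at h1
      rw [hw] at h1
      have h2 : 0 ≤ (φ j : ℝ) * h.eval₂ e (V (φ j)) :=
        mul_nonneg (Nat.cast_nonneg _) (hnn _)
      have h3 : 0 ≤ (∑ i, V (φ j) i ^ 6) / (6 * τ) := by
        have : 0 ≤ ∑ i, V (φ j) i ^ 6 := Finset.sum_nonneg fun i _ => by positivity
        positivity
      linarith
    exact ge_of_tendsto (hlimi t) (Filter.Eventually.of_forall h1)

/-- **The supremum of a coordinate on the real zero set of a nonnegative polynomial of
degree at most `4` whose coefficients are in a ring of parameters: there is a nonzero parameter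
`q` such that, for each specialisation, the supremum is infinite or at most `Bd / |q|`.** -/
theorem param_bound [Nontrivial A] (hA : IsNrm NA) (h : MvPolynomial σ A)
    (hdeg : ∀ b ∈ h.support, b.degree ≤ 4) (t : σ) :
    ∃ q : A, q ≠ 0 ∧ NA q ≤ Bd (Fintype.card σ) (mn NA h) ∧
      ∀ e : A →+* ℝ, (∀ a, |e a| ≤ NA a) → (∀ v : σ → ℝ, 0 ≤ h.eval₂ e v) →
        ∀ X : ℝ, (∀ v : σ → ℝ, h.eval₂ e v = 0 → v t ≤ X) →
          ∀ v : σ → ℝ, h.eval₂ e v = 0 → |e q| * v t ≤ Bd (Fintype.card σ) (mn NA h) := by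
  obtain ⟨χ, hχ0, hχN, hχ⟩ := exists_chi hA h hdeg t
  have h2 : pn NA χ.leadingCoeff.leadingCoeff ≤ N3 NA χ :=
    (leadingCoeff_le_pn hA.pn _).trans (leadingCoeff_le_pn hA.pn.pn _)
  refine ⟨χ.leadingCoeff.leadingCoeff.leadingCoeff,
    Polynomial.leadingCoeff_ne_zero.mpr (Polynomial.leadingCoeff_ne_zero.mpr
      (Polynomial.leadingCoeff_ne_zero.mpr hχ0)),
    (leadingCoeff_le_pn hA _).trans (h2.trans hχN), ?_⟩
  intro e he hnn X hX v₀ hv₀
  choose V hV1 hV2 hV3 using fun j : ℕ => exists_tau e h hnn t χ (hχ e) ((j : ℝ) + 1)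
    (by positivity) v₀ hv₀
  set S : Set ℝ := {y | ∃ v : σ → ℝ, h.eval₂ e v = 0 ∧ v t = y} with hS
  have hSne : S.Nonempty := ⟨_, v₀, hv₀, rfl⟩
  have hSb : BddAbove S := ⟨X, by rintro y ⟨v, hv, rfl⟩; exact hX v hv⟩
  have hlim : Tendsto (fun j => V j t) atTop (𝓝 (sSup S)) := by
    rw [Metric.tendsto_atTop]
    intro ε hε
    obtain ⟨y, ⟨w, hw, rfl⟩, hy⟩ := exists_lt_of_lt_csSup hSne (show sSup S - ε / 2 < sSup S by linarith)
    obtain ⟨j₀, hj₀⟩ := exists_nat_gt ((∑ i, w i ^ 6) / (3 * ε))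
    refine ⟨j₀, fun j hj => ?_⟩
    rw [Real.dist_eq, abs_lt]
    have h1 : V j t ≤ sSup S := le_csSup hSb ⟨V j, hV1 j, rfl⟩
    have h2 := hV3 j w hw
    have h3 : (∑ i, w i ^ 6) / (6 * ((j : ℝ) + 1)) ≤ ε / 2 := by
      have hj' : (j₀ : ℝ) ≤ j := by exact_mod_cast hj
      rw [div_le_iff₀ (by positivity)]
      rw [div_lt_iff₀ (by positivity)] at hj₀
      nlinarith
    constructor
    · linarith
    · linarith
  have hroot : ev1 e (sSup S) χ.leadingCoeff.leadingCoeff = 0 := by
    refine lead_limit χ.leadingCoeff (fun j => ev1 e (V j t)) (ev1 e (sSup S))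
      (fun a => tendsto_ev1 e _ _ hlim a) (fun j => (j : ℝ) + 1) ?_ hV2
    exact tendsto_atTop_add_const_right _ _ tendsto_natCast_atTop_atTop
  have h1 := root_mul_le hA _ e he _ hroot
  have h3 : v₀ t ≤ sSup S := le_csSup hSb ⟨v₀, hv₀, rfl⟩
  have h4 : ((pn NA χ.leadingCoeff.leadingCoeff : ℕ) : ℝ) ≤ (Bd (Fintype.card σ) (mn NA h) : ℝ) :=
    Nat.cast_le.mpr (h2.trans hχN)
  have h5 := mul_le_mul_of_nonneg_left h3 (abs_nonneg (e χ.leadingCoeff.leadingCoeff.leadingCoeff))
  linarith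

end Pool.Agent.RElim.Par
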